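import Pool.Agent.Q200.LD.Pow
import Pool.Agent.Y133.Half.CS

/-!
# Existence of adapted homogeneous bases
-/

open CategoryTheory AlgebraicGeometry TensorProduct

set_option linter.unusedSectionVars false

universe u v

namespace Pool.Agent.Q200.LD

open Module
open Pool.Agent.H914 Pool.Agent.H914.VarClass Pool.Agent.H914.VarClass.Obj
  Pool.Agent.H914.WeilCohomology
open Pool.Agent.Y133.Half
open Pool.Agent.Q60.NP (Family ClosedMul ClosedPull ClosedPush IsCoordinate MapsInto)

section Abs

variable {K : Type*} [Field K] {V : Type*} [AddCommGroup V] [Module K V]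

/-- A basis of a vector space adapted to a subspace. -/
lemma exists_basis_adapted [FiniteDimensional K V] (T : Submodule K V) :
    ∃ (m n : ℕ) (b : Basis (Fin m ⊕ Fin n) K V), (∀ i, b (Sum.inl i) ∈ T) ∧
      ∀ x ∈ T, ∀ j, b.repr x (Sum.inr j) = 0 := by
  obtain ⟨C, hC⟩ := Submodule.exists_isCompl T
  refine ⟨finrank K T, finrank K C,
    ((finBasis K T).prod (finBasis K C)).map (Submodule.prodEquivOfIsCompl T C hC), ?_, ?_⟩
  · intro i
    rw [Basis.map_apply, Submodule.coe_prodEquivOfIsCompl', Basis.prod_apply_inl_fst,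
      Basis.prod_apply_inl_snd]
    simp
  · intro x hx j
    have h1 : (Submodule.prodEquivOfIsCompl T C hC).symm x = ((⟨x, hx⟩ : T), (0 : C)) :=
      Submodule.prodEquivOfIsCompl_symm_apply_left (p := T) (q := C) hC (⟨x, hx⟩ : T)
    rw [Basis.map_repr, LinearEquiv.trans_apply, h1, Basis.prod_repr_inr]
    simp

/-- A homogeneous basis adapted to a family of subspaces. -/
lemma exists_gbasis [FiniteDimensional K V] {gr : ℕ → Submodule K V}
    (h : DirectSum.IsInternal gr) (T : ℕ → Submodule K V) :
    ∃ (ι : Type) (_ : Fintype ι) (_ : DecidableEq ι) (e : Basis ι K V) (a : ι → ℕ)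
      (τ : ι → Bool), (∀ j, e j ∈ gr (a j)) ∧ (∀ j, τ j = true → e j ∈ T (a j)) ∧
      (∀ i, ∀ x ∈ gr i, x ∈ T i → ∀ j, τ j = false → e.repr x j = 0) ∧
      ∀ i, ∀ x ∈ gr i, ∀ j, a j ≠ i → e.repr x j = 0 := by
  classical
  choose m n b hb1 hb2 using fun i => exists_basis_adapted (K := K) (V := gr i)
    ((T i).comap (gr i).subtype)
  have e := h.collectedBasis b
  have hfin : Finite (Σ i, Fin (m i) ⊕ Fin (n i)) := Module.Finite.finite_basis e
  refine ⟨Σ i, Fin (m i) ⊕ Fin (n i), Fintype.ofFinite _, inferInstance, h.collectedBasis b,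
    fun j => j.1, fun j => j.2.isLeft, ?_, ?_, ?_, ?_⟩
  · intro j
    exact h.collectedBasis_mem b j
  · rintro ⟨i, s | s⟩ hj
    · rw [DirectSum.IsInternal.collectedBasis_coe]
      exact hb1 i s
    · exact absurd hj (by simp)
  · rintro i x hx hxT ⟨i', s | s⟩ hj
    · exact absurd hj (by simp)
    · by_cases hi : i = i'
      · subst hi
        rw [h.collectedBasis_repr_of_mem b hx]
        exact hb2 i ⟨x, hx⟩ hxT s
      · exact h.collectedBasis_repr_of_mem_ne b hi hx
  · rintro i x hx ⟨i', s⟩ hi
    exact h.collectedBasis_repr_of_mem_ne b (Ne.symm hi) hx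

end Abs

variable {k : Type u} [Field k] {𝒱 : VarClass k} {ops : CycleOps 𝒱}
  {W : WeilCohomology.{u, v} ops} {X Y Z : 𝒱.Obj} {R : Submodule W.K (W.H X)}

/-- The double annihilator. -/
lemma Good.ann_ann (hR : Good R) {x : W.H X} (h : ∀ y ∈ ann R, W.tr X (x * y) = 0) : x ∈ R := by
  by_contra hx
  obtain ⟨φ, hφ, hφR⟩ := Submodule.exists_le_ker_of_notMem hx
  obtain ⟨y, rfl⟩ := pd_surjective (W := W) (X := X) φ
  apply hφ
  rw [pd_apply]
  have hy : y ∈ ann R := fun r hr => hφR hr
  rw [proj_sum y, Finset.sum_mul, map_sum]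
  refine Finset.sum_eq_zero fun i _ => ?_
  have h1 := H914.proj_mem (W.isInternal X) i y
  rw [← tr_comm_zero h1]
  exact h _ (hR.ann_gr hy i)

/-- **Existence of adapted bases.** -/
theorem Good.exists_adp (hR : Good R) : ∃ (ι : Type) (_ : Fintype ι) (_ : DecidableEq ι)
    (e : Basis ι W.K (W.H X)) (a b : ι → ℕ) (ω : ι → ℤ) (f : ι → W.H X), Adp R e a b ω f := by
  obtain ⟨ι, hι, hι', e, a, τ, h1, h2, h3, h4⟩ := exists_gbasis (W.isInternal X)
    (fun i => if i ≤ X.dim then R else ann R)
  have ha : ∀ j, a j ≤ 2 * X.dim := by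
    intro j
    by_contra hj
    have h5 := h1 j
    rw [W.gr_eq_bot X _ (by omega)] at h5
    exact e.ne_zero j ((Submodule.mem_bot _).1 h5)
  have h5 : ∀ j, ∃ y ∈ W.gr X (2 * X.dim - a j), ∀ x, W.tr X (y * x) = e.repr x j := by
    intro j
    obtain ⟨y, hy⟩ := pd_surjective (W := W) (X := X) (e.coord j)
    refine ⟨proj (W.isInternal X) (2 * X.dim - a j) y, H914.proj_mem _ _ _, ?_⟩
    have h6 : (pd W X (proj (W.isInternal X) (2 * X.dim - a j) y)) = e.coord j := by
      refine e.ext fun l => ?_
      rw [pd_apply]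
      have haj := ha j
      by_cases hl : a l = a j
      · rw [tr_proj (h1 l) (by omega), ← hy, pd_apply]
      · rw [W.tr_eq_zero (W.mul_mem (H914.proj_mem _ _ _) (h1 l)) (by omega), Basis.coord_apply]
        exact (h4 _ _ (h1 l) j (Ne.symm hl)).symm
    intro x
    exact congrArg (fun F : Module.Dual W.K (W.H X) => F x) h6
  choose f hf1 hf2 using h5
  -- the elements of degree at most `dim X` in `R`, and those of the annihilator
  have h6 : ∀ r ∈ R, ∀ j, a j ≤ X.dim → τ j = false → e.repr r j = 0 := by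
    intro r hr j hj hτ
    rw [proj_sum r, map_sum, Finsupp.coe_finsetSum, Finset.sum_apply]
    refine Finset.sum_eq_zero fun i _ => ?_
    by_cases hi : a j = i
    · refine h3 i _ (H914.proj_mem _ i r) ?_ j hτ
      rw [if_pos (by omega)]
      exact hR.gr r hr i
    · exact h4 i _ (H914.proj_mem _ i r) j hi
  have h7 : ∀ r ∈ ann R, ∀ j, X.dim < a j → τ j = false → e.repr r j = 0 := by
    intro r hr j hj hτ
    rw [proj_sum r, map_sum, Finsupp.coe_finsetSum, Finset.sum_apply]
    refine Finset.sum_eq_zero fun i _ => ?_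
    by_cases hi : a j = i
    · refine h3 i _ (H914.proj_mem _ i r) ?_ j hτ
      rw [if_neg (by omega)]
      exact hR.ann_gr hr i
    · exact h4 i _ (H914.proj_mem _ i r) j hi
  refine ⟨ι, hι, hι', e, a, fun j => 2 * X.dim - a j,
    fun j => if τ j = true then (if a j ≤ X.dim then 0 else -1)
      else (if a j ≤ X.dim then 1 else 0), f, ⟨h1, ?_, hf1, ?_, fun x j => hf2 j x⟩⟩
  · intro j
    cases hτ : τ j
    · by_cases hj : a j ≤ X.dim
      · simp only [hj, if_true]
        rw [if_neg (by simp), fl_pos R le_rfl]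
        trivial
      · simp only [hj, if_false]
        rw [if_neg (by simp), fl_zero]
        exact hR.top _ (by omega) (h1 j)
    · have h8 := h2 j hτ
      by_cases hj : a j ≤ X.dim
      · simp only [hj, if_true] at h8 ⊢
        rw [fl_zero]
        exact h8
      · simp only [hj, if_false] at h8 ⊢
        rw [if_pos trivial, fl_neg]
        exact h8
  · intro j
    have haj := ha j
    cases hτ : τ j
    · by_cases hj : a j ≤ X.dim
      · simp only [hj, if_true]
        rw [if_neg (by simp), fl_neg]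
        intro r hr
        rw [hf2]
        exact h6 r hr j hj hτ
      · simp only [hj, if_false]
        rw [if_neg (by simp), neg_zero, fl_zero]
        refine hR.ann_ann fun y hy => ?_
        rw [hf2]
        exact h7 y hy j (by omega) hτ
    · by_cases hj : a j ≤ X.dim
      · simp only [hj, if_true]
        rw [neg_zero, fl_zero]
        exact hR.top _ (by omega) (hf1 j)
      · simp only [hj, if_false]
        rw [if_pos trivial, neg_neg, fl_pos R le_rfl]
        trivial

end Pool.Agent.Q200.LD
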