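import Pool.Agent.Q200.LD.Bas
import Pool.Agent.Y133.Half.TateSS

/-!
# Cycles of small dimension or small codimension belong to the filtration
-/

open CategoryTheory AlgebraicGeometry TensorProduct

set_option linter.unusedSectionVars false

universe u v

namespace Pool.Agent.Q200.LD

open Module
open Pool.Agent.H914 Pool.Agent.H914.VarClass Pool.Agent.H914.VarClass.Obj
  Pool.Agent.H914.WeilCohomology
open Pool.Agent.Y133.Half Pool.Agent.H281R3.HT Pool.Agent.W536.RR
open Pool.Agent.Q60.NP (Family ClosedMul ClosedPull ClosedPush IsCoordinate MapsInto)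

variable {k : Type u} [Field k] {𝒱 : VarClass k} {ops : CycleOps 𝒱}
  {W : WeilCohomology.{u, v} ops} {X Y Z : 𝒱.Obj} {R : Submodule W.K (W.H X)}

lemma dim_pw (X : 𝒱.Obj) (n : ℕ) : (pw X n).dim = (n + 1) * X.dim := by
  induction n with
  | zero => rw [zero_add, one_mul]; rfl
  | succ n ih =>
    have h1 : (pw X (n + 1)).dim = (pw X n).dim + X.dim := rfl
    rw [h1, ih]
    ring

lemma IsStableSpace.gr (hS : IsStableSpace W X R) {x : W.H X} (hx : x ∈ R) (i : ℕ) :
    proj (W.isInternal X) i x ∈ R := by
  refine Submodule.iSup_induction _ (motive := fun x => proj (W.isInternal X) i x ∈ R)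
    (hS.graded hx) ?_ ?_ ?_
  · rintro j y ⟨hy, hy'⟩
    by_cases h : j = i
    · subst h
      rw [H914.proj_same _ hy']
      exact hy
    · rw [H914.proj_ne _ hy' h]
      exact Submodule.zero_mem _
  · rw [map_zero]; exact Submodule.zero_mem _
  · intro a b ha hb
    rw [map_add]; exact Submodule.add_mem _ ha hb

/-- The stability for linear combinations of algebraic classes. -/
lemma IsStableSpace.alg (hS : IsStableSpace W X R) {n j : ℕ} {c : W.H (pw X n)}
    (hc : c ∈ algSpan W (pw X n)) (hj : c ∈ W.gr (pw X n) (2 * j))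
    (hd : (pw X n).dim ≤ j + X.dim) {x : Fin (n + 1) → W.H X} (hx : ∀ i, x i ∈ R)
    (i : Fin (n + 1)) : W.push (prj X n i) (c * extProd W X n x) ∈ R := by
  have h1 := spanCycles_of_algSpan hc hj
  rw [spanCycles] at h1
  clear hc hj
  induction h1 using Submodule.span_induction with
  | zero => rw [zero_mul, map_zero]; exact Submodule.zero_mem _
  | add c c' _ _ h h' => rw [add_mul, map_add]; exact Submodule.add_mem _ h h'
  | smul r c _ h => rw [smul_mul_assoc, map_smul]; exact Submodule.smul_mem _ _ h
  | mem c hc =>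
    obtain ⟨p, hp, z, hz, rfl⟩ := hc
    obtain rfl : p = j := by exact_mod_cast hp
    exact hS.stable n p z hd hz x hx i

lemma prj1_zero : prj X 1 0 = fst X X := by
  have h1 : (0 : Fin 2) = Fin.castSucc (0 : Fin 1) := rfl
  rw [h1, prj_castSucc, prj_zero]
  exact Category.comp_id _

lemma prj1_one : prj X 1 1 = snd X X := by
  have h1 : (1 : Fin 2) = Fin.last 1 := rfl
  rw [h1, prj_last]
  rfl

lemma ep_two (x : Fin 2 → W.H X) :
    extProd W X 1 x = W.map (fst X X) (x 0) * W.map (snd X X) (x 1) := by
  rw [ep_succ, ep_zero]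
  rfl

lemma diag_mem : W.push (diag X) 1 ∈ W.gr (X.prod X) (2 * X.dim) := by
  have h1 := W.push_mem (diag X) (W.one_mem X)
  have e : ((0 : ℕ) : ℤ) + 2 * (((X.prod X).dim : ℤ) - X.dim) = ((2 * X.dim : ℕ) : ℤ) := by
    rw [Obj.dim_prod]
    push_cast
    ring
  rw [e] at h1
  rwa [grZ_natCast] at h1

/-- Stable subspaces are closed under products. -/
lemma IsStableSpace.mul (hS : IsStableSpace W X R) {x y : W.H X} (hx : x ∈ R) (hy : y ∈ R) :
    x * y ∈ R := by
  have hd : (pw X 1).dim ≤ X.dim + X.dim := le_of_eq rfl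
  have h2 := hS.alg (n := 1) (j := X.dim) (c := W.push (diag X) 1)
    (algSpan_push (W := W) (diag X) one_mem_algSpan) diag_mem hd (x := ![x, y])
    (by
      intro i
      fin_cases i
      · exact hx
      · exact hy) 1
  rw [ep_two, prj1_one] at h2
  have h3 : W.push (snd X X) (W.push (diag X) 1 * (W.map (fst X X) x * W.map (snd X X) y)) =
      x * y := by
    rw [← W.push_mul, ← W.push_comp, map_mul (W.map (diag X)), ← W.map_comp, ← W.map_comp]
    have e1 : diag X ≫ snd X X = 𝟙 X := Obj.lift_snd _ _
    have e2 : diag X ≫ fst X X = 𝟙 X := Obj.lift_fst _ _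
    rw [e1, e2, W.push_id, W.map_id, W.map_id, one_mul]
  exact h3 ▸ h2

/-- Stable subspaces satisfy the conditions. -/
lemma IsStableSpace.good (hS : IsStableSpace W X R) {g : ℕ} (hg : 0 < g)
    (hlow : ∀ i, i < g ∨ X.dim ≤ i → W.gr X i ≤ R) : Good R where
  gr _ hx i := hS.gr hx i
  top i hi := hlow i (Or.inr hi)
  one := hlow 0 (Or.inl hg) (W.one_mem X)
  mul _ hx _ hy := hS.mul hx hy

section Low

variable {ι : Type} [Fintype ι] [DecidableEq ι] {e : Basis ι W.K (W.H X)} {a b : ι → ℕ}
  {ω : ι → ℤ} {f : ι → W.H X}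

/-- The trace of the product with an external product, in terms of the push-forward to a factor. -/
lemma tr_factor {n : ℕ} {x : Fin (n + 1) → W.H X} {a' : Fin (n + 1) → ℕ}
    (hx : ∀ i, x i ∈ W.gr X (a' i)) (l : Fin (n + 1)) : ∃ s : W.K, ∀ c,
      W.tr (pw X n) (c * extProd W X n x) = s * W.tr X
        (W.push (prj X n l) (c * extProd W X n (Function.update x l 1)) * x l) := by
  have h1 : Function.update x l 1 * Pi.mulSingle l (x l) = x := by
    funext i
    rw [Pi.mul_apply]
    by_cases h : i = l
    · subst h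
      rw [Function.update_self, Pi.mulSingle_eq_same, one_mul]
    · rw [Function.update_of_ne h, Pi.mulSingle_eq_of_ne h, mul_one]
  obtain ⟨s, hs, h2⟩ := ep_mul (W := W) (X := X) (n := n) (x := Function.update x l 1)
    (y := Pi.mulSingle l (x l)) (a := Function.update a' l 0)
    (b := fun i => if i = l then a' l else 0)
    (by
      intro i
      by_cases h : i = l
      · subst h
        rw [Function.update_self, Function.update_self]
        exact PH.one
      · rw [Function.update_of_ne h, Function.update_of_ne h]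
        exact PH.of (hx i))
    (by
      intro i
      by_cases h : i = l
      · subst h
        rw [Pi.mulSingle_eq_same, if_pos rfl]
        exact PH.of (hx i)
      · rw [Pi.mulSingle_eq_of_ne h, if_neg h]
        exact PH.one)
  refine ⟨s⁻¹, fun c => ?_⟩
  rw [h1, ep_single] at h2
  have h3 : extProd W X n x = s⁻¹ • (extProd W X n (Function.update x l 1) *
      W.map (prj X n l) (x l)) := by
    rw [h2, smul_smul, inv_mul_cancel₀ hs, one_smul]
  rw [W.tr_push, h3, mul_smul_comm, map_smul, smul_eq_mul, mul_assoc]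

/-- **Cycles of dimension at most `dim X` belong to the filtration.** -/
theorem low_mem (hR : Good R) (hS : IsStableSpace W X R) (hA : Adp R e a b ω f) {n j : ℕ}
    {c : W.H (pw X n)} (hc : c ∈ algSpan W (pw X n)) (hj : c ∈ W.gr (pw X n) (2 * j))
    (hd : (pw X n).dim ≤ j + X.dim) : c ∈ FF R n 0 := by
  refine hA.FF_of_orth fun x a' ω' hx hω' => ?_
  have hgr := ep_mem (W := W) fun i => (hx i).1
  rw [← tr_comm_zero hgr]
  by_contra hne
  -- the degrees
  have hsum : 2 * j + ∑ i, a' i = 2 * (pw X n).dim := by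
    by_contra h
    exact hne (W.tr_eq_zero (W.mul_mem hj hgr) h)
  have hne0 : extProd W X n x ≠ 0 := by
    intro h
    rw [h, mul_zero, map_zero] at hne
    exact hne rfl
  have hx0 : ∀ i, x i ≠ 0 := by
    intro i h
    apply hne0
    rw [← epM_apply]
    exact (epM W X n).map_coord_zero i h
  have hω1 : ∀ i, -1 ≤ ω' i := by
    intro i
    by_contra h
    have h1 := (hx i).2
    rw [fl_bot R (by omega)] at h1
    exact hx0 i ((Submodule.mem_bot _).1 h1)
  -- a factor of negative weight
  obtain ⟨l, hl⟩ : ∃ l, ω' l < 0 := by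
    by_contra hcon
    push Not at hcon
    have := Finset.sum_nonneg fun i (_ : i ∈ Finset.univ) => hcon i
    omega
  have hann : ∀ i, ω' i < 0 → x i ∈ ann R := by
    intro i hi
    have h1 := (hx i).2
    rw [show ω' i = -1 by have := hω1 i; omega, fl_neg] at h1
    exact h1
  have hdeg : ∀ i, ω' i < 0 → X.dim < a' i := by
    intro i hi
    by_contra h
    exact hx0 i (hR.ann_low (hann i hi) (hx i).1 (by omega))
  have hal := hdeg l hl
  have hsum2 : a' l + ∑ i ∈ Finset.univ.erase l, a' i = ∑ i, a' i :=
    Finset.add_sum_erase _ _ (Finset.mem_univ l)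
  have hω2 : ω' l + ∑ i ∈ Finset.univ.erase l, ω' i = ∑ i, ω' i :=
    Finset.add_sum_erase _ _ (Finset.mem_univ l)
  have hother : ∀ i, i ≠ l → 0 ≤ ω' i := by
    intro i hi
    by_contra h
    have h1 := hdeg i (by omega)
    have h2 : a' i ≤ ∑ i ∈ Finset.univ.erase l, a' i :=
      Finset.single_le_sum (f := a') (fun _ _ => Nat.zero_le _)
        (Finset.mem_erase.2 ⟨hi, Finset.mem_univ i⟩)
    omega
  have hother0 : ∀ i, i ≠ l → ω' i = 0 := by
    intro i hi
    have h2 : ω' i ≤ ∑ i ∈ Finset.univ.erase l, ω' i :=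
      Finset.single_le_sum (f := ω') (fun j hj => hother j (Finset.ne_of_mem_erase hj))
        (Finset.mem_erase.2 ⟨hi, Finset.mem_univ i⟩)
    have h3 := hother i hi
    have h4 := hω1 l
    omega
  obtain ⟨s, hs⟩ := tr_factor (fun i => (hx i).1) l
  apply hne
  rw [hs]
  have h5 : W.push (prj X n l) (c * extProd W X n (Function.update x l 1)) ∈ R := by
    refine hS.alg hc hj hd (fun i => ?_) l
    by_cases h : i = l
    · subst h
      rw [Function.update_self]
      exact hR.one
    · rw [Function.update_of_ne h]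
      have h6 := (hx i).2
      rwa [hother0 i h, fl_zero] at h6
  rw [(tr_comm_zero (hx l).1 _).2 (hann l hl _ h5), mul_zero]

/-- **Cycles of small codimension belong to the filtration.** -/
theorem codim_mem (hR : Good R) (hS : IsStableSpace W X R) (hA : Adp R e a b ω f) {g : ℕ}
    (hlow : ∀ i < g, W.gr X i ≤ R) {D : X.Cycles} (hD : X.IsCyc 1 D)
    (hHL : HardLefschetz W X D) {n j : ℕ} (hjg : j < g)
    {c : W.H (pw X n)} (hc : c ∈ algSpan W (pw X n)) (hj : c ∈ W.gr (pw X n) (2 * j)) :
    c ∈ FF R n 0 := by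
  refine hA.FF_of_orth fun x a' ω' hx hω' => ?_
  have hgr := ep_mem (W := W) fun i => (hx i).1
  rw [← tr_comm_zero hgr]
  by_contra hne
  -- the degrees
  have hsum : 2 * j + ∑ i, a' i = 2 * (pw X n).dim := by
    by_contra h
    exact hne (W.tr_eq_zero (W.mul_mem hj hgr) h)
  rw [dim_pw] at hsum
  have hne0 : extProd W X n x ≠ 0 := by
    intro h
    rw [h, mul_zero, map_zero] at hne
    exact hne rfl
  have hx0 : ∀ i, x i ≠ 0 := by
    intro i h
    apply hne0
    rw [← epM_apply]
    exact (epM W X n).map_coord_zero i h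
  have ha : ∀ i, a' i ≤ 2 * X.dim := by
    intro i
    by_contra h
    have h1 := (hx i).1
    rw [W.gr_eq_bot X _ (by omega)] at h1
    exact hx0 i ((Submodule.mem_bot _).1 h1)
  have hω1 : ∀ i, -1 ≤ ω' i := by
    intro i
    by_contra h
    have h1 := (hx i).2
    rw [fl_bot R (by omega)] at h1
    exact hx0 i ((Submodule.mem_bot _).1 h1)
  -- a factor of negative weight
  obtain ⟨l, hl⟩ : ∃ l, ω' l < 0 := by
    by_contra hcon
    push Not at hcon
    have := Finset.sum_nonneg fun i (_ : i ∈ Finset.univ) => hcon i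
    omega
  have hann : ∀ i, ω' i < 0 → x i ∈ ann R := by
    intro i hi
    have h1 := (hx i).2
    rw [show ω' i = -1 by have := hω1 i; omega, fl_neg] at h1
    exact h1
  -- the codegrees
  set c' : Fin (n + 1) → ℕ := fun i => 2 * X.dim - a' i with hc'
  have hcsum : ∑ i, c' i = 2 * j := by
    have h1 : ∑ i, c' i + ∑ i, a' i = (n + 1) * (2 * X.dim) := by
      rw [← Finset.sum_add_distrib]
      have h2 : ∀ i, c' i + a' i = 2 * X.dim := fun i => by
        have := ha i
        simp only [hc']
        omega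
      rw [Finset.sum_congr rfl fun i _ => h2 i, Finset.sum_const, Finset.card_univ,
        Fintype.card_fin, smul_eq_mul]
    have h3 : (n + 1) * (2 * X.dim) = 2 * ((n + 1) * X.dim) := by ring
    omega
  have hcod : ∀ i, ω' i < 0 → g ≤ c' i := by
    intro i hi
    by_contra h
    apply hx0 i
    apply W.nondeg
    intro y
    refine hom_ind (p := fun y => W.tr X (x i * y) = 0) ?_ ?_ ?_ y
    · intro m y hy
      by_cases hm : a' i + m = 2 * X.dim
      · refine hann i hi y (hlow m ?_ hy)
        simp only [hc'] at h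
        omega
      · exact W.tr_eq_zero (W.mul_mem (hx i).1 hy) hm
    · simp
    · intro y y' hy hy'
      rw [mul_add, map_add, hy, hy', add_zero]
  have hdeg : ∀ i, ω' i < 0 → X.dim < a' i := by
    intro i hi
    by_contra h
    exact hx0 i (hR.ann_low (hann i hi) (hx i).1 (by omega))
  have hcl := hcod l hl
  have hal := hdeg l hl
  have hcl' : c' l < X.dim := by
    have := ha l
    simp only [hc']
    omega
  have hsum2 : c' l + ∑ i ∈ Finset.univ.erase l, c' i = ∑ i, c' i :=
    Finset.add_sum_erase _ _ (Finset.mem_univ l)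
  have hle : ∀ i, i ≠ l → c' i ≤ ∑ i ∈ Finset.univ.erase l, c' i := by
    intro i hi
    exact Finset.single_le_sum (f := c') (fun _ _ => Nat.zero_le _)
      (Finset.mem_erase.2 ⟨hi, Finset.mem_univ i⟩)
  -- the other factors are in the image of the Lefschetz operator
  have hz : ∀ i, ∃ z : W.H X, ∃ p q : ℕ, z ∈ W.gr X q ∧ W.cl X D ^ p * z = x i ∧
      (i ≠ l → p = X.dim - c' i ∧ z ∈ R) ∧ (i = l → p = 0 ∧ z = x i) := by
    intro i
    by_cases hi : i = l
    · exact ⟨x i, 0, a' i, (hx i).1, by rw [pow_zero, one_mul], fun h => absurd hi h,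
        fun _ => ⟨rfl, rfl⟩⟩
    · have h1 := hle i hi
      have h2 := ha i
      have h3 : 2 * X.dim - c' i = a' i := by
        simp only [hc']
        omega
      obtain ⟨z, hz1, hz2⟩ := (hHL (c' i) (by omega)).2 (x i) (by rw [h3]; exact (hx i).1)
      rw [LinearMap.pow_mulLeft, LinearMap.mulLeft_apply] at hz2
      exact ⟨z, X.dim - c' i, c' i, hz1, hz2, fun _ => ⟨rfl, hlow _ (by omega) hz1⟩,
        fun h => absurd h hi⟩
  choose z p q hz1 hz2 hz3 hz4 using hz
  -- the power of the divisor class
  set y : Fin (n + 1) → W.H X := fun i => W.cl X D ^ p i with hy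
  have hypow : ∀ m : ℕ, W.cl X D ^ m ∈ W.gr X (2 * m) := by
    intro m
    induction m with
    | zero => rw [pow_zero, mul_zero]; exact W.one_mem X
    | succ m ih =>
      rw [pow_succ]
      have h1 := W.mul_mem ih (W.cl_mem hD)
      rwa [show 2 * m + 2 * 1 = 2 * (m + 1) by ring] at h1
  have hygr : ∀ i, y i ∈ W.gr X (2 * p i) := fun i => hypow _
  have hyalg : ∀ m : ℕ, W.cl X D ^ m ∈ algSpan W X := by
    intro m
    induction m with
    | zero => rw [pow_zero]; exact one_mem_algSpan
    | succ m ih =>
      rw [pow_succ]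
      exact algSpan_mul ih (by
        rw [← algSet_span]
        exact Submodule.subset_span ⟨1, D, hD, rfl⟩)
  obtain ⟨s, hs, h1⟩ := ep_mul (W := W) (fun i => PH.of (hygr i)) fun i => PH.of (hz1 i)
  have hyz : y * z = x := funext fun i => hz2 i
  rw [hyz] at h1
  -- the algebraic class of small dimension
  have halg : c * extProd W X n y ∈ algSpan W (pw X n) := by
    refine algSpan_mul hc ?_
    have h2 : ∀ (N : ℕ) (t : Fin N → W.H (pw X n)), (∀ i, t i ∈ algSpan W (pw X n)) →
        (List.ofFn t).prod ∈ algSpan W (pw X n) := by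
      intro N
      induction N with
      | zero => intro t _; rw [List.ofFn_zero, List.prod_nil]; exact one_mem_algSpan
      | succ N ih =>
        intro t ht
        rw [List.ofFn_succ, List.prod_cons]
        exact algSpan_mul (ht 0) (ih _ fun i => ht i.succ)
    exact h2 _ _ fun i => algSpan_map _ (hyalg _)
  have hgr2 : c * extProd W X n y ∈ W.gr (pw X n) (2 * (j + ∑ i, p i)) := by
    have h2 := W.mul_mem hj (ep_mem (W := W) hygr)
    rwa [← Finset.mul_sum, ← mul_add] at h2
  have hdim : (pw X n).dim ≤ j + ∑ i, p i + X.dim := by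
    rw [dim_pw]
    have h2 : ∑ i, p i + ∑ i, c' i = n * X.dim + c' l := by
      have h3 : p l + ∑ i ∈ Finset.univ.erase l, p i = ∑ i, p i :=
        Finset.add_sum_erase _ _ (Finset.mem_univ l)
      have h4 : ∑ i ∈ Finset.univ.erase l, p i + ∑ i ∈ Finset.univ.erase l, c' i =
          n * X.dim := by
        rw [← Finset.sum_add_distrib]
        have h5 : ∀ i ∈ Finset.univ.erase l, p i + c' i = X.dim := by
          intro i hi
          have hi' := Finset.ne_of_mem_erase hi
          have h6 := (hz3 i hi').1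
          have h7 := hle i hi'
          omega
        rw [Finset.sum_congr rfl h5, Finset.sum_const, Finset.card_erase_of_mem
          (Finset.mem_univ l), Finset.card_univ, Fintype.card_fin, smul_eq_mul,
          Nat.add_sub_cancel]
      have h5 := (hz4 l rfl).1
      omega
    have h6 : (n + 1) * X.dim = n * X.dim + X.dim := by ring
    omega
  have hlowc := low_mem hR hS hA halg hgr2 hdim
  -- the remaining external product has negative weight
  have hzF : extProd W X n z ∈ FF R n (-1) := by
    refine FF_gen (a := q) (ω := fun i => if i = l then -1 else 0) (fun i => ⟨hz1 i, ?_⟩)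
      (by simp)
    by_cases hi : i = l
    · rw [if_pos hi, fl_neg, (hz4 i hi).2]
      subst hi
      exact hann i hl
    · rw [if_neg hi, fl_zero]
      exact (hz3 i hi).2
  have h3 := hR.tr_FF (by norm_num) (hR.FF_mul hlowc hzF)
  rw [mul_assoc, h1, mul_smul_comm, map_smul, smul_eq_mul] at h3
  exact hne ((mul_eq_zero.1 h3).resolve_left hs)

end Low

end Pool.Agent.Q200.LD
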