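import Pool.Agent.Q60.NP.PAutDefs
import Pool.Agent.H281R3.HT.Defs

/-!
# Classes generated by cycles of small dimension or small codimension: definitions
-/

open CategoryTheory AlgebraicGeometry

universe u v

namespace Pool.Agent.Q200.LD

section Abs

variable {K : Type*} [Field K] {A : Type*} [Ring A] [Algebra K A] {B : Type*} [Ring B]
  [Algebra K B]

/-- The subspace `R` is graded: it is the sum of its intersections with the spaces `gr i`. -/
def IsGradedSub (gr : ℕ → Submodule K A) (R : Submodule K A) : Prop := R ≤ ⨆ i, R ⊓ gr i

/-- The subspace `R` is stable under the operations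
`(x_0, x_1, …) ↦ q_i (c * p_0 (x_0) * p_1 (x_1) * ⋯)`. -/
def IsStableFor {n : ℕ} (p : Fin n → (A →ₐ[K] B)) (q : Fin n → (B →ₗ[K] A))
    (R : Submodule K A) (c : B) : Prop :=
  ∀ x : Fin n → A, (∀ i, x i ∈ R) → ∀ i, q i (c * (List.ofFn fun i => p i (x i)).prod) ∈ R

/-- The linear map `f` sends `u * x` to `x` for all `x ∈ p`. -/
def IsInverseOn (p : Submodule K A) (u : A) (f : A →ₗ[K] A) : Prop := ∀ x ∈ p, f (u * x) = x

end Abs

open Pool.Agent.H914 Pool.Agent.H914.VarClass Pool.Agent.H914.VarClass.Obj
  Pool.Agent.H914.WeilCohomology
open Pool.Agent.Y133.Half (pw prj)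
open Pool.Agent.Q60.NP (Family ClosedMul ClosedPull ClosedPush)

variable {k : Type u} [Field k] {𝒱 : VarClass k} {ops : CycleOps 𝒱}

/-- The family contains the classes of all cycles of codimension `j` on `pw X n` (the product of
`n + 1` copies of `X`). -/
def ContainsCycles {W : WeilCohomology.{u, v} ops} {X : 𝒱.Obj} (V : Family W X) (n j : ℕ) : Prop :=
  ∀ z, (pw X n).IsCyc j z → W.cl (pw X n) z ∈ V n

/-- The operator on the cohomology of `X` induced by a class on `X × X`. -/
noncomputable def corr1 (W : WeilCohomology.{u, v} ops) (X : 𝒱.Obj) (c : W.H (pw X 1)) :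
    W.H X →ₗ[W.K] W.H X := W.corr (X := X) (Y := X) c

/-- The family of spaces of classes on the powers of `X` contains the classes of the cycles of
codimension less than `g`, the classes of the cycles of dimension at most `dim X`, and the classes
on `X × X` of the Künneth projectors, and it is closed under cup products, and under pull-backs and
push-forwards along the morphisms `x ↦ (x_(σ 0), x_(σ 1), …)` (projections, permutations,
diagonals). -/
structure IsLowFamily {W : WeilCohomology.{u, v} ops} {X : 𝒱.Obj} (g : ℕ) (V : Family W X) :
    Prop where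
  cycles : ∀ n j, j < g ∨ (pw X n).dim ≤ j + X.dim → ContainsCycles V n j
  kunneth : ∀ i c, IsProjector (W.gr X) i (corr1 W X c) → c ∈ V 1
  mul : ∀ n, ClosedMul (V n)
  pull : ClosedPull V
  push : ClosedPush V

/-- The classes on `pw X n` which are generated by the classes of the cycles of codimension less
than `g`, the classes of the cycles of dimension at most `dim X`, and the Künneth projectors: they
belong to every family as in `IsLowFamily`. -/
noncomputable def lowClasses (W : WeilCohomology.{u, v} ops) (X : 𝒱.Obj) (g n : ℕ) :
    Submodule W.K (W.H (pw X n)) :=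
  ⨅ V : {V : Family W X // IsLowFamily g V}, V.1 n

/-- The subspace `R` of the cohomology of `X` is stable under the operations
`(x_0, …, x_n) ↦ p_i_* (c * p_0^* x_0 * ⋯ * p_n^* x_n)` defined by the class `c` on `pw X n`, where
`p_i` is the `i`-th projection. -/
def IsStableUnder (W : WeilCohomology.{u, v} ops) (X : 𝒱.Obj) (R : Submodule W.K (W.H X)) (n : ℕ)
    (c : W.H (pw X n)) : Prop :=
  IsStableFor (fun i => W.map (prj X n i)) (fun i => W.push (prj X n i)) R c

/-- The subspace `R` of the cohomology of `X` is graded, and it is stable under the operations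
defined by the classes of all cycles of dimension at most `dim X` on the powers of `X`. -/
structure IsStableSpace (W : WeilCohomology.{u, v} ops) (X : 𝒱.Obj)
    (R : Submodule W.K (W.H X)) : Prop where
  graded : IsGradedSub (W.gr X) R
  stable : ∀ n j z, (pw X n).dim ≤ j + X.dim → (pw X n).IsCyc j z →
    IsStableUnder W X R n (W.cl (pw X n) z)

/-- The inverse of `ξ ^ (d - i) : H^i → H^(2 d - i)`, where `d = dim X` and `ξ` is the class of
`D`, is induced by a class on `X × X` which is generated by the classes of the cycles of codimension
less than `g`, the classes of the cycles of dimension at most `dim X`, and the Künneth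
projectors. -/
def InverseGenerated (W : WeilCohomology.{u, v} ops) (X : 𝒱.Obj) (D : X.Cycles) (g i : ℕ) : Prop :=
  ∃ c ∈ lowClasses W X g 1, IsInverseOn (W.gr X i) (W.cl X D ^ (X.dim - i)) (corr1 W X c)

/-- The space of linear combinations of algebraic classes contains `H^i`. -/
def SpannedByCycles (W : WeilCohomology.{u, v} ops) (X : 𝒱.Obj) (i : ℕ) : Prop :=
  W.gr X i ≤ Pool.Agent.H281R3.HT.algSpan W X

/-- The product of the pull-backs of `x 0, x 1, …, x n` along the projections. -/
noncomputable def extProd (W : WeilCohomology.{u, v} ops) (X : 𝒱.Obj) (n : ℕ)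
    (x : Fin (n + 1) → W.H X) : W.H (pw X n) :=
  (List.ofFn fun i => W.map (prj X n i) (x i)).prod

end Pool.Agent.Q200.LD
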