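import Pool.Agent.Q200.LD.Defs

/-!
# Classes generated by small cycles and by classes from other varieties: definitions
-/

open CategoryTheory AlgebraicGeometry

universe u v

namespace Pool.Agent.Q200.LD

section Abs

variable {K : Type*} [Field K] {A : Type*} [AddCommGroup A] [Module K A]

/-- The operator `f` acts on `gr j` as the scalar `r j`, for every `j`. -/
def ActsByScalars (gr : ℕ → Submodule K A) (r : ℕ → K) (f : A →ₗ[K] A) : Prop :=
  ∀ j, ∀ x ∈ gr j, f x = r j • x

/-- The operator `f` is the identity on `gr j` for even `j` and zero on `gr j` for odd `j`. -/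
def IsEvenProjector (gr : ℕ → Submodule K A) (f : A →ₗ[K] A) : Prop :=
  ∀ j, ∀ x ∈ gr j, f x = if j % 2 = 0 then x else 0

/-- The elements `x` and `y` are linearly independent modulo `q`. -/
def IndependentModulo (q : Submodule K A) (x y : A) : Prop :=
  ∀ a b : K, a • x + b • y ∈ q → a = 0 ∧ b = 0

/-- If `n` is odd, `gr n` is not contained in `q`; if `n` is even, `gr n` contains two elements
which are linearly independent modulo `q` (this is also allowed if `n` is odd). -/
def IsBigModulo (gr : ℕ → Submodule K A) (n : ℕ) (q : Submodule K A) : Prop :=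
  (n % 2 = 1 ∧ ¬ gr n ≤ q) ∨ ∃ x ∈ gr n, ∃ y ∈ gr n, IndependentModulo q x y

/-- All `x l` are homogeneous of degrees less than `j`. -/
def HaveDegreesBelow {I : Type*} (gr : ℕ → Submodule K A) (j : ℕ) (x : I → A) : Prop :=
  ∀ l, ∃ a < j, x l ∈ gr a

end Abs

open Pool.Agent.H914 Pool.Agent.H914.VarClass Pool.Agent.H914.VarClass.Obj
  Pool.Agent.H914.WeilCohomology
open Pool.Agent.Y133.Half (pw prj)
open Pool.Agent.Q60.NP (Family ClosedMul ClosedPull ClosedPush)

variable {k : Type u} [Field k] {𝒱 : VarClass k} {ops : CycleOps 𝒱}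

/-- The morphism factors through a variety with the property `P`. -/
def FactorsThrough (P : 𝒱.Obj → Prop) {Z X : 𝒱.Obj} (f : Z ⟶ X) : Prop :=
  ∃ Y, P Y ∧ ∃ (a : Z ⟶ Y) (b : Y ⟶ X), a ≫ b = f

/-- The class is the push-forward of a class along a morphism which satisfies `Q`. -/
def IsPushForward (W : WeilCohomology.{u, v} ops) {X : 𝒱.Obj}
    (Q : ∀ Z : 𝒱.Obj, (Z ⟶ X) → Prop) (c : W.H X) : Prop :=
  ∃ (Z : 𝒱.Obj) (f : Z ⟶ X), Q Z f ∧ ∃ w, W.push f w = c

/-- The class on `X` is the push-forward of a class (algebraic or not) on a variety with the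
property `P`. -/
def ComesFrom (W : WeilCohomology.{u, v} ops) (P : 𝒱.Obj → Prop) {X : 𝒱.Obj} (c : W.H X) : Prop :=
  IsPushForward W (fun Z _ => P Z) c

/-- The class on `pw X n` is the push-forward of a class (algebraic or not) along a morphism all
components of which factor through varieties with the property `P`. -/
def IsSupported (W : WeilCohomology.{u, v} ops) (P : 𝒱.Obj → Prop) {X : 𝒱.Obj} (n : ℕ)
    (c : W.H (pw X n)) : Prop :=
  IsPushForward W (fun _ f => ∀ l, FactorsThrough P (f ≫ prj X n l)) c

/-- The class `y` of degree `j` on `X` is obtained from classes `x_0, …, x_n` of degrees less than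
`j` by a cycle `z` of dimension at most `dim X` on `pw X n`: it is
`p_l_* (cl z * p_0^* x_0 * ⋯ * p_n^* x_n)`. -/
def IsObtained (W : WeilCohomology.{u, v} ops) (X : 𝒱.Obj) (j : ℕ) (y : W.H X) : Prop :=
  ∃ n p z, (pw X n).dim ≤ p + X.dim ∧ (pw X n).IsCyc p z ∧
    ∃ x, HaveDegreesBelow (W.gr X) j x ∧
      ∃ l, W.push (prj X n l) (W.cl (pw X n) z * extProd W X n x) = y

/-- The subspace of `H^j(X)` spanned by the classes which are obtained from classes of smaller
degrees by cycles of dimension at most `dim X` on the powers of `X`, and by the push-forwards of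
classes on varieties with the property `P`. -/
def lowerPart (W : WeilCohomology.{u, v} ops) (X : 𝒱.Obj) (P : 𝒱.Obj → Prop) (j : ℕ) :
    Submodule W.K (W.H X) :=
  Submodule.span W.K {y | y ∈ W.gr X j ∧ (IsObtained W X j y ∨ ComesFrom W P y)}

/-- The family of spaces of classes on the powers of `X` contains the classes of the cycles of
codimension less than `g`, the classes of the cycles of dimension less than `dim X`, the
push-forwards of arbitrary classes along morphisms all components of which factor through
varieties with the property `P`, and the Künneth projectors of degrees `i ∈ S`, and it is closed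
under cup products, and under pull-backs and push-forwards along the morphisms
`x ↦ (x_(σ 0), x_(σ 1), …)` (projections, permutations, diagonals). -/
structure IsSmallFamily {W : WeilCohomology.{u, v} ops} {X : 𝒱.Obj} (P : 𝒱.Obj → Prop) (g : ℕ)
    (S : Set ℕ) (V : Family W X) : Prop where
  cycles : ∀ n j, j < g ∨ (pw X n).dim < j + X.dim → ContainsCycles V n j
  supported : ∀ n c, IsSupported W P n c → c ∈ V n
  kunneth : ∀ i ∈ S, ∀ c, IsProjector (W.gr X) i (corr1 W X c) → c ∈ V 1
  mul : ∀ n, ClosedMul (V n)
  pull : ClosedPull V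
  push : ClosedPush V

/-- The classes on `pw X n` which are generated as in `IsSmallFamily`: they belong to every such
family. -/
noncomputable def smallClasses (W : WeilCohomology.{u, v} ops) (X : 𝒱.Obj) (P : 𝒱.Obj → Prop)
    (g : ℕ) (S : Set ℕ) (n : ℕ) : Submodule W.K (W.H (pw X n)) :=
  ⨅ V : {V : Family W X // IsSmallFamily P g S V}, V.1 n

end Pool.Agent.Q200.LD
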