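import Pool.Agent.Q200.LD.Fil
import Pool.Agent.Q60.NP.Kun
import Pool.Agent.Q60.HD.Ctr

/-!
# Superderivations of the cohomology of the powers of a variety
-/

open CategoryTheory AlgebraicGeometry TensorProduct

set_option linter.unusedSectionVars false

universe u v

namespace Pool.Agent.Q200.LD

open Module
open Pool.Agent.H914 Pool.Agent.H914.VarClass Pool.Agent.H914.VarClass.Obj
  Pool.Agent.H914.WeilCohomology
open Pool.Agent.Y133.Half
open Pool.Agent.Q60.NP (Family ClosedMul ClosedPull ClosedPush IsCoordinate MapsInto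
  mem_PH_of_par)

variable {k : Type u} [Field k] {𝒱 : VarClass k} {ops : CycleOps 𝒱}
  {W : WeilCohomology.{u, v} ops} {X Y Z : 𝒱.Obj}

/-- The parity operator. -/
noncomputable abbrev pa (W : WeilCohomology.{u, v} ops) (Y : 𝒱.Obj) : Module.End W.K (W.H Y) :=
  H914.par (W.isInternal Y)

lemma sgn_sq (m : ℕ) : (-1 : W.K) ^ m * (-1 : W.K) ^ m = 1 := by
  rw [← mul_pow]
  simp

lemma pa_pow {b : ℕ} {x : W.H Y} (hx : x ∈ PH W Y b) (ε : ℕ) :
    (pa W Y ^ ε) x = (-1 : W.K) ^ (ε * b) • x := by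
  induction ε with
  | zero => rw [pow_zero, zero_mul, pow_zero, one_smul, Module.End.one_apply]
  | succ ε ih =>
    rw [pow_succ, Module.End.mul_apply, PH.par hx, map_smul, ih, smul_smul, ← pow_add]
    congr 2
    ring

lemma pa_pa (x : W.H Y) : pa W Y (pa W Y x) = x := by
  have h1 := par_mul_par (K := W.K) (W.isInternal Y)
  exact congrArg (fun F => F x) h1

lemma pa_one : pa W Y 1 = 1 := by
  rw [PH.par (PH.of (W.one_mem Y)), pow_zero, one_smul]

lemma pa_pow_one (ε : ℕ) : (pa W Y ^ ε) (1 : W.H Y) = 1 := by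
  rw [pa_pow (PH.of (W.one_mem Y)), mul_zero, pow_zero, one_smul]

/-- Induction over the classes which are homogeneous for the parity. -/
lemma ph_ind {p : W.H Y → Prop} (h : ∀ b, ∀ x ∈ PH W Y b, p x)
    (hadd : ∀ x y, p x → p y → p (x + y)) (x : W.H Y) : p x :=
  hom_ind (p := p) (fun i x hx => h i x (PH.of hx)) (h 0 0 (Submodule.zero_mem _)) hadd x

lemma pa_pow_mul (ε : ℕ) (x y : W.H Y) :
    (pa W Y ^ ε) (x * y) = (pa W Y ^ ε) x * (pa W Y ^ ε) y := by
  refine ph_ind (p := fun x => (pa W Y ^ ε) (x * y) = (pa W Y ^ ε) x * (pa W Y ^ ε) y) ?_ ?_ x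
  · intro a x hx
    refine ph_ind (p := fun y => (pa W Y ^ ε) (x * y) = (pa W Y ^ ε) x * (pa W Y ^ ε) y) ?_ ?_ y
    · intro b y hy
      rw [pa_pow (PH.mul hx hy), pa_pow hx, pa_pow hy, smul_mul_smul_comm, ← pow_add, mul_add]
    · intro y y' h h'
      rw [mul_add, map_add, map_add, h, h', mul_add]
  · intro x x' h h'
    rw [add_mul, map_add, map_add, h, h', add_mul]

lemma tr_pa_pow (ε : ℕ) (x : W.H Y) : W.tr Y ((pa W Y ^ ε) x) = W.tr Y x := by
  refine ph_ind (p := fun x => W.tr Y ((pa W Y ^ ε) x) = W.tr Y x) ?_ ?_ x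
  · intro b x hx
    rw [pa_pow hx, map_smul, smul_eq_mul]
    rcases Nat.even_or_odd b with h | h
    · rw [(h.mul_left _).neg_one_pow, one_mul]
    · rw [PH.tr_odd hx (Nat.odd_iff.1 h), mul_zero]
  · intro x x' h h'
    rw [map_add, map_add, map_add, h, h']

lemma tr_pa_mul (ε : ℕ) {b : ℕ} {y : W.H Y} (hy : y ∈ PH W Y b) (x : W.H Y) :
    W.tr Y ((pa W Y ^ ε) x * y) = (-1 : W.K) ^ (ε * b) * W.tr Y (x * y) := by
  have h1 : (-1 : W.K) ^ (ε * b) • ((pa W Y ^ ε) x * y) = (pa W Y ^ ε) (x * y) := by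
    rw [pa_pow_mul, pa_pow hy, mul_smul_comm]
  have h2 := congrArg (W.tr Y) h1
  rw [map_smul, tr_pa_pow, smul_eq_mul] at h2
  rw [← h2, ← mul_assoc, sgn_sq, one_mul]

lemma map_pa_pow (f : X ⟶ Y) (ε : ℕ) (x : W.H Y) :
    W.map f ((pa W Y ^ ε) x) = (pa W X ^ ε) (W.map f x) := by
  refine ph_ind (p := fun x => W.map f ((pa W Y ^ ε) x) = (pa W X ^ ε) (W.map f x)) ?_ ?_ x
  · intro b x hx
    rw [pa_pow hx, pa_pow (PH.map f hx), map_smul]
  · intro x x' h h'
    rw [map_add, map_add, map_add, map_add, h, h']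

lemma push_pa_pow (f : X ⟶ Y) (ε : ℕ) (x : W.H X) :
    W.push f ((pa W X ^ ε) x) = (pa W Y ^ ε) (W.push f x) := by
  refine ph_ind (p := fun x => W.push f ((pa W X ^ ε) x) = (pa W Y ^ ε) (W.push f x)) ?_ ?_ x
  · intro b x hx
    rw [pa_pow hx, pa_pow (PH.push f hx), map_smul]
  · intro x x' h h'
    rw [map_add, map_add, map_add, map_add, h, h']

/-- A superderivation of parity `ε` of the cohomology of `Y` whose values have trace zero. -/
structure SDer (ε : ℕ) (δ : Module.End W.K (W.H Y)) : Prop where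
  par : ∀ x, δ (pa W Y x) = (-1 : W.K) ^ ε • pa W Y (δ x)
  mul : ∀ x y, δ (x * y) = δ x * y + (pa W Y ^ ε) x * δ y
  tr : ∀ x, W.tr Y (δ x) = 0

section SDer

variable {ε : ℕ} {δ : Module.End W.K (W.H Y)} (h : SDer ε δ)

include h

lemma SDer.ph {b : ℕ} {x : W.H Y} (hx : x ∈ PH W Y b) : δ x ∈ PH W Y (b + ε) := by
  apply mem_PH_of_par
  have h1 := h.par x
  rw [PH.par hx, map_smul] at h1
  have h2 := congrArg (fun z => (-1 : W.K) ^ ε • z) h1
  simp only [smul_smul] at h2
  rw [sgn_sq, one_smul] at h2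
  rw [← h2, ← pow_add, add_comm]

lemma SDer.mul' {b : ℕ} {x : W.H Y} (hx : x ∈ PH W Y b) (y : W.H Y) :
    δ (x * y) = δ x * y + (-1 : W.K) ^ (ε * b) • (x * δ y) := by
  rw [h.mul, pa_pow hx, smul_mul_assoc]

lemma SDer.one : δ 1 = 0 := by
  have h1 := h.mul 1 1
  rw [mul_one, mul_one, pa_pow_one, one_mul] at h1
  have h2 : δ 1 + 0 = δ 1 + δ 1 := by rw [add_zero]; exact h1
  exact (add_left_cancel h2).symm

/-- The derivative of a product of several classes. -/
lemma SDer.prod {N : ℕ} (y : Fin N → W.H Y) {a : Fin N → ℕ} (hy : ∀ i, y i ∈ PH W Y (a i)) :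
    ∃ s : Fin N → W.K, δ (List.ofFn y).prod =
      ∑ l, s l • (List.ofFn (Function.update y l (δ (y l)))).prod := by
  induction N with
  | zero =>
    refine ⟨fun _ => 0, ?_⟩
    rw [List.ofFn_zero, List.prod_nil, h.one, Finset.univ_eq_empty, Finset.sum_empty]
  | succ N ih =>
    obtain ⟨s, hs⟩ := ih (fun i => y i.succ) fun i => hy i.succ
    refine ⟨Fin.cons 1 fun l => (-1 : W.K) ^ (ε * a 0) * s l, ?_⟩
    rw [List.ofFn_succ, List.prod_cons, h.mul' (hy 0), hs, Fin.sum_univ_succ, Fin.cons_zero,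
      one_smul]
    congr 1
    · rw [List.ofFn_succ, List.prod_cons, Function.update_self]
      congr 3
    · rw [Finset.mul_sum, Finset.smul_sum]
      refine Finset.sum_congr rfl fun l _ => ?_
      rw [Fin.cons_succ, mul_smul_comm, smul_smul, List.ofFn_succ, List.prod_cons,
        Function.update_of_ne (Fin.succ_ne_zero l).symm]
      congr 4
      funext i
      by_cases hi : i = l
      · subst hi
        rw [Function.update_self, Function.update_self]
      · rw [Function.update_of_ne hi, Function.update_of_ne]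
        exact fun h' => hi (Fin.succ_injective _ h')

end SDer

/-- The superderivation of the cohomology of a product. -/
noncomputable def prodDer (ε : ℕ) (δ₁ : Module.End W.K (W.H Y)) (δ₂ : Module.End W.K (W.H Z)) :
    Module.End W.K (W.H (Y.prod Z)) :=
  extOp W δ₁ 1 + extOp W (pa W Y ^ ε) δ₂

lemma prodDer_xp {ε : ℕ} {δ₁ : Module.End W.K (W.H Y)} {δ₂ : Module.End W.K (W.H Z)} {a : ℕ}
    {x : W.H Y} (hx : x ∈ PH W Y a) (y : W.H Z) : prodDer ε δ₁ δ₂ (xp W x y) =
      xp W (δ₁ x) y + (-1 : W.K) ^ (ε * a) • xp W x (δ₂ y) := by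
  rw [prodDer, LinearMap.add_apply, extOp_xp, extOp_xp, Module.End.one_apply, pa_pow hx,
    xp_smul_left]

lemma pa_xp {a b : ℕ} {x : W.H Y} {y : W.H Z} (hx : x ∈ PH W Y a) (hy : y ∈ PH W Z b) :
    pa W (Y.prod Z) (xp W x y) = (-1 : W.K) ^ (a + b) • xp W x y := PH.par (xp_mem hx hy)

/-- **The superderivation of a product.** -/
theorem prodDer_sder {ε : ℕ} {δ₁ : Module.End W.K (W.H Y)} {δ₂ : Module.End W.K (W.H Z)}
    (h₁ : SDer ε δ₁) (h₂ : SDer ε δ₂) : SDer ε (prodDer ε δ₁ δ₂) where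
  par c := by
    refine xp_induction (p := fun c => prodDer ε δ₁ δ₂ (pa W (Y.prod Z) c) =
      (-1 : W.K) ^ ε • pa W (Y.prod Z) (prodDer ε δ₁ δ₂ c)) ?_ ?_ c
    · intro a b ha hb
      rw [map_add, map_add, map_add, map_add, ha, hb, smul_add]
    · intro i j x hx y hy
      rw [pa_xp hx hy, map_smul, prodDer_xp hx, map_add, map_smul, pa_xp (h₁.ph hx) hy,
        pa_xp hx (h₂.ph hy)]
      simp only [smul_add, smul_smul]
      have e1 : (-1 : W.K) ^ ε * (-1 : W.K) ^ (i + ε + j) = (-1 : W.K) ^ (i + j) := by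
        rw [← pow_add]
        exact neg_pow_congr (by omega)
      have e2 : (-1 : W.K) ^ (i + j) * (-1 : W.K) ^ (ε * i) =
          (-1 : W.K) ^ ε * ((-1 : W.K) ^ (ε * i) * (-1 : W.K) ^ (i + (j + ε))) := by
        rw [← pow_add, ← pow_add, ← pow_add]
        exact neg_pow_congr (by omega)
      rw [e1, e2]
  mul c c' := by
    refine xp_induction (p := fun c => prodDer ε δ₁ δ₂ (c * c') =
      prodDer ε δ₁ δ₂ c * c' + (pa W (Y.prod Z) ^ ε) c * prodDer ε δ₁ δ₂ c') ?_ ?_ c
    · intro a b ha hb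
      rw [add_mul, map_add, ha, hb, map_add, map_add, add_mul, add_mul]
      abel
    intro i j x hx y hy
    refine xp_induction (p := fun c' => prodDer ε δ₁ δ₂ (xp W x y * c') =
      prodDer ε δ₁ δ₂ (xp W x y) * c' +
        (pa W (Y.prod Z) ^ ε) (xp W x y) * prodDer ε δ₁ δ₂ c') ?_ ?_ c'
    · intro a b ha hb
      rw [mul_add, map_add, ha, hb, map_add, mul_add, mul_add]
      abel
    intro i' j' x' hx' y' hy'
    rw [xp_mul x x' y y' hy hx', map_smul, prodDer_xp (PH.mul hx hx'), prodDer_xp hx,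
      prodDer_xp hx', pa_pow (xp_mem hx hy), h₁.mul' hx, h₂.mul' hy, xp_add_left, xp_add_right,
      xp_smul_left, xp_smul_right, add_mul]
    simp only [smul_mul_assoc]
    rw [mul_add (xp W x y)]
    simp only [mul_smul_comm]
    rw [xp_mul (δ₁ x) x' y y' hy hx', xp_mul x x' (δ₂ y) y' (h₂.ph hy) hx',
      xp_mul x (δ₁ x') y y' hy (h₁.ph hx'), xp_mul x x' y (δ₂ y') hy hx']
    simp only [smul_add, smul_smul, ← pow_add]
    have e1 : (-1 : W.K) ^ (j * i' + ε * i) =
        (-1 : W.K) ^ (ε * (i + j) + j * (i' + ε)) := by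
      apply neg_pow_congr
      have : ε * (i + j) + j * (i' + ε) = (j * i' + ε * i) + 2 * (ε * j) := by ring
      omega
    have e2 : (-1 : W.K) ^ (j * i' + ε * (i + i')) =
        (-1 : W.K) ^ (ε * i + (j + ε) * i') := by
      congr 1
      ring
    have e3 : (-1 : W.K) ^ (j * i' + (ε * (i + i') + ε * j)) =
        (-1 : W.K) ^ (ε * (i + j) + (ε * i' + j * i')) := by
      congr 1
      ring
    rw [e1, e2, e3]
    abel
  tr c := by
    refine xp_induction (p := fun c => W.tr (Y.prod Z) (prodDer ε δ₁ δ₂ c) = 0) ?_ ?_ c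
    · intro a b ha hb
      rw [map_add, map_add, ha, hb, add_zero]
    · intro i j x hx y hy
      rw [prodDer_xp hx, map_add, map_smul, tr_xp, tr_xp, h₁.tr, h₂.tr, zero_mul, mul_zero,
        smul_zero, add_zero]

/-- **The superderivations of the powers.** -/
theorem exists_pder {ε : ℕ} {δ : Module.End W.K (W.H X)} (h : SDer ε δ) (n : ℕ) :
    ∃ D : Module.End W.K (W.H (pw X n)), SDer ε D ∧
      ∀ i x, D (W.map (prj X n i) x) = W.map (prj X n i) (δ x) := by
  induction n with
  | zero =>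
    refine ⟨δ, h, fun i x => ?_⟩
    have h1 : ∀ z : W.H X, W.map (prj X 0 i) z = z := fun z => W.map_id X z
    rw [h1, h1]
    rfl
  | succ n ih =>
    obtain ⟨D, hD, hD'⟩ := ih
    refine ⟨prodDer (Y := pw X n) (Z := X) ε D δ, prodDer_sder hD h, fun i x => ?_⟩
    induction i using Fin.lastCases with
    | last =>
      rw [prj_last]
      have h1 : ∀ z : W.H X, W.map (psnd X n) z = xp W (X := pw X n) (Y := X) 1 z := by
        intro z
        rw [xp, map_one, one_mul]
        rfl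
      rw [h1, h1]
      refine (prodDer_xp (ε := ε) (δ₁ := D) (δ₂ := δ) (PH.of (W.one_mem (pw X n))) x).trans ?_
      rw [hD.one, mul_zero, pow_zero, one_smul]
      have h2 : xp W (X := pw X n) (Y := X) 0 x = 0 := by rw [xp, map_zero, zero_mul]
      rw [h2, zero_add]
    | cast i =>
      have h1 : ∀ z : W.H X, W.map (prj X (n + 1) i.castSucc) z =
          xp W (X := pw X n) (Y := X) (W.map (prj X n i) z) 1 := by
        intro z
        rw [xp, map_one, mul_one, prj_castSucc]
        exact W.map_comp _ _ z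
      rw [h1, h1, ← hD']
      refine ph_ind (p := fun x => prodDer (Y := pw X n) (Z := X) ε D δ
        (xp W (X := pw X n) (Y := X) (W.map (prj X n i) x) 1) =
          xp W (X := pw X n) (Y := X) (D (W.map (prj X n i) x)) 1) ?_ ?_ x
      · intro b x hx
        rw [prodDer_xp (PH.map _ hx), h.one]
        have h2 : xp W (X := pw X n) (Y := X) (W.map (prj X n i) x) 0 = 0 := by
          rw [xp, map_zero, mul_zero]
        rw [h2, smul_zero, add_zero]
      · intro x y hx hy
        rw [map_add, xp_add_left, map_add, hx, hy, map_add, xp_add_left]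

end Pool.Agent.Q200.LD
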