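import Pool.Agent.Q200.LD.Der
import Pool.Agent.Y133.Half.CS

/-!
# The classes on the powers which are killed by superderivations
-/

open CategoryTheory AlgebraicGeometry TensorProduct

set_option linter.unusedSectionVars false

universe u v

namespace Pool.Agent.Q200.LD

open Module
open Pool.Agent.H914 Pool.Agent.H914.VarClass Pool.Agent.H914.VarClass.Obj
  Pool.Agent.H914.WeilCohomology
open Pool.Agent.Y133.Half
open Pool.Agent.Q60.NP (Family ClosedMul ClosedPull ClosedPush IsCoordinate MapsInto
  mem_PH_of_par)

variable {k : Type u} [Field k] {𝒱 : VarClass k} {ops : CycleOps 𝒱}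
  {W : WeilCohomology.{u, v} ops} {X Y Z : 𝒱.Obj}

/-- The cohomology of a power is spanned by external products of homogeneous classes. -/
lemma ep_induction (n : ℕ) {p : W.H (pw X n) → Prop} (hadd : ∀ c d, p c → p d → p (c + d))
    (h : ∀ (x : Fin (n + 1) → W.H X) (a : Fin (n + 1) → ℕ), (∀ i, x i ∈ W.gr X (a i)) →
      p (extProd W X n x)) (c : W.H (pw X n)) : p c := by
  induction n with
  | zero =>
    refine hom_ind (Y := X) (p := p) ?_ ?_ hadd c
    · intro i x hx
      have h1 := h (fun _ => x) (fun _ => i) fun _ => hx
      rwa [ep_zero] at h1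
    · have h1 := h (fun _ => 0) (fun _ => 0) fun _ => Submodule.zero_mem _
      rwa [ep_zero] at h1
  | succ n ih =>
    refine W.kunneth_induction (X := pw X n) (Y := X) (p := p) hadd ?_ c
    intro i j a _ b hb
    refine ih (p := fun a => p (xp W (X := pw X n) (Y := X) a b)) ?_ ?_ a
    · intro a a' ha ha'
      rw [xp_add_left]
      exact hadd _ _ ha ha'
    · intro x a' hx
      have h1 := h (Fin.snoc x b) (Fin.snoc a' j) (by
        intro l
        induction l using Fin.lastCases with
        | last => rw [Fin.snoc_last, Fin.snoc_last]; exact hb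
        | cast l => rw [Fin.snoc_castSucc, Fin.snoc_castSucc]; exact hx l)
      rw [ep_succ, Fin.snoc_last] at h1
      have h2 : (fun i : Fin (n + 1) => (Fin.snoc x b : Fin (n + 2) → W.H X) i.castSucc) = x := by
        funext i
        rw [Fin.snoc_castSucc]
      rwa [h2] at h1

lemma SDer.tr_mul {ε : ℕ} {δ : Module.End W.K (W.H Y)} (h : SDer ε δ) (x y : W.H Y) :
    W.tr Y (δ x * y) = -W.tr Y ((pa W Y ^ ε) x * δ y) := by
  have h1 := h.tr (x * y)
  rw [h.mul, map_add] at h1
  exact eq_neg_of_add_eq_zero_left h1

/-- Superderivations of the cohomology of all powers. -/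
structure PDer (ε : ℕ) (δ : Module.End W.K (W.H X)) (D : ∀ n, Module.End W.K (W.H (pw X n))) :
    Prop where
  base : SDer ε δ
  sder : ∀ n, SDer ε (D n)
  gen : ∀ n i x, D n (W.map (prj X n i) x) = W.map (prj X n i) (δ x)

/-- The extension to all powers. -/
theorem exists_pder' {ε : ℕ} {δ : Module.End W.K (W.H X)} (h : SDer ε δ) :
    ∃ D : ∀ n, Module.End W.K (W.H (pw X n)), PDer ε δ D := by
  choose D h1 h2 using exists_pder h
  exact ⟨D, h, h1, h2⟩

section PDer

variable {ε : ℕ} {δ : Module.End W.K (W.H X)} {D : ∀ n, Module.End W.K (W.H (pw X n))}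
  (h : PDer ε δ D)

include h

lemma PDer.pull {m n : ℕ} {f : pw X m ⟶ pw X n} (hf : IsCoordinate f) (c : W.H (pw X n)) :
    D m (W.map f c) = W.map f (D n c) := by
  obtain ⟨σ, hσ⟩ := hf
  have h1 : ∀ (N : ℕ) (y : Fin N → W.H (pw X n)),
      (∀ i, D m (W.map f (y i)) = W.map f (D n (y i))) →
        D m (W.map f (List.ofFn y).prod) = W.map f (D n (List.ofFn y).prod) := by
    intro N
    induction N with
    | zero =>
      intro y _
      rw [List.ofFn_zero, List.prod_nil, map_one, (h.sder n).one, (h.sder m).one, map_zero]
    | succ N ih =>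
      intro y hy
      rw [List.ofFn_succ, List.prod_cons, map_mul (W.map f), (h.sder m).mul, hy 0,
        ih _ fun i => hy i.succ, (h.sder n).mul, map_add, map_mul (W.map f), map_mul (W.map f),
        map_pa_pow]
  refine ep_induction n (p := fun c => D m (W.map f c) = W.map f (D n c)) ?_ ?_ c
  · intro c d hc hd
    rw [map_add, map_add, hc, hd, map_add, map_add]
  · intro x a _
    refine h1 _ _ fun i => ?_
    rw [← W.map_comp, hσ, h.gen, h.gen, ← W.map_comp, hσ]

lemma PDer.push {m n : ℕ} {f : pw X m ⟶ pw X n} (hf : IsCoordinate f) (c : W.H (pw X m)) :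
    D n (W.push f c) = W.push f (D m c) := by
  apply W.tr_ext
  intro y
  rw [(h.sder n).tr_mul, ← push_pa_pow, W.tr_push, W.tr_push, ← h.pull hf, ← (h.sder m).tr_mul]

/-- The classes killed by the superderivations form a closed family. -/
lemma PDer.closedMul (n : ℕ) : ClosedMul (LinearMap.ker (D n)) := by
  intro a ha b hb
  rw [LinearMap.mem_ker] at ha hb ⊢
  rw [(h.sder n).mul, ha, hb, zero_mul, mul_zero, add_zero]

lemma PDer.closedPull : ClosedPull (W := W) (X := X) (fun n => LinearMap.ker (D n)) := by
  intro m n f hf a ha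
  rw [LinearMap.mem_ker] at ha ⊢
  exact (h.pull hf a).trans (by rw [ha, map_zero])

lemma PDer.closedPush : ClosedPush (W := W) (X := X) (fun n => LinearMap.ker (D n)) := by
  intro m n f hf a ha
  rw [LinearMap.mem_ker] at ha ⊢
  rw [h.push hf, ha, map_zero]

/-- **Criterion for a class to be killed.** -/
lemma PDer.ker_of {n : ℕ} {c : W.H (pw X n)}
    (hc : ∀ (x : Fin (n + 1) → W.H X) (a : Fin (n + 1) → ℕ), (∀ i, x i ∈ W.gr X (a i)) →
      ∀ l, W.tr (pw X n) (c * extProd W X n (Function.update x l (δ (x l)))) = 0) :
    D n c = 0 := by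
  apply W.nondeg
  refine ep_induction n ?_ ?_
  · intro c d hc hd
    rw [mul_add, map_add, hc, hd, add_zero]
  · intro x a hx
    rw [(h.sder n).tr_mul]
    obtain ⟨s, hs⟩ := (h.sder n).prod (fun i => W.map (prj X n i) (x i)) (a := a)
      fun i => PH.map _ (PH.of (hx i))
    have h1 : D n (extProd W X n x) = ∑ l, s l •
        extProd W X n (Function.update x l (δ (x l))) := by
      rw [extProd, hs]
      refine Finset.sum_congr rfl fun l _ => ?_
      congr 1
      change _ = (List.ofFn fun i => W.map (prj X n i) (Function.update x l (δ (x l)) i)).prod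
      congr 2
      funext i
      by_cases hi : i = l
      · subst hi
        rw [Function.update_self, Function.update_self, h.gen]
      · rw [Function.update_of_ne hi, Function.update_of_ne hi]
    rw [h1, Finset.mul_sum, map_sum, neg_eq_zero]
    refine Finset.sum_eq_zero fun l _ => ?_
    rw [mul_smul_comm, map_smul, tr_pa_mul (b := ∑ i, Function.update a l (a l + ε) i), hc x a hx l,
      mul_zero, smul_zero]
    refine ep_PH fun i => ?_
    by_cases hi : i = l
    · subst hi
      rw [Function.update_self, Function.update_self]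
      exact h.base.ph (PH.of (hx i))
    · rw [Function.update_of_ne hi, Function.update_of_ne hi]
      exact PH.of (hx i)

end PDer

/-! ### The superderivation defined by two classes -/

/-- The operator `x ↦ tr(u x) u' + s tr(u' x) u`. -/
noncomputable def twoDer (u u' : W.H X) (s : W.K) : Module.End W.K (W.H X) :=
  (pd W X u).smulRight u' + s • (pd W X u').smulRight u

lemma twoDer_apply (u u' : W.H X) (s : W.K) (x : W.H X) :
    twoDer u u' s x = W.tr X (u * x) • u' + (s * W.tr X (u' * x)) • u := by
  rw [twoDer, LinearMap.add_apply, LinearMap.smul_apply, LinearMap.smulRight_apply,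
    LinearMap.smulRight_apply, pd_apply, pd_apply, smul_smul]

/-- The sign in the definition of the superderivation. -/
noncomputable def sgnD (W : WeilCohomology.{u, v} ops) (n n' : ℕ) : W.K := -(-1) ^ (n * n')

section Two

variable {n n' : ℕ} {u u' : W.H X}

lemma tr_mul_ne (hu : u ∈ W.gr X (2 * X.dim - n)) {a : ℕ} {x : W.H X} (hx : x ∈ W.gr X a)
    (h : a ≠ n) (hn : n ≤ 2 * X.dim) : W.tr X (u * x) = 0 :=
  W.tr_eq_zero (W.mul_mem hu hx) (by omega)

/-- **The superderivation.** -/
theorem twoDer_sder (hn : 0 < n) (hn' : 0 < n') (hd : n ≤ 2 * X.dim) (hd' : n' ≤ 2 * X.dim)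
    (hu : u ∈ W.gr X (2 * X.dim - n)) (hu' : u' ∈ W.gr X (2 * X.dim - n'))
    (h : ∀ a b, 0 < a → 0 < b → ∀ y ∈ W.gr X a, ∀ z ∈ W.gr X b, W.tr X (u * (y * z)) = 0)
    (h' : ∀ a b, 0 < a → 0 < b → ∀ y ∈ W.gr X a, ∀ z ∈ W.gr X b, W.tr X (u' * (y * z)) = 0) :
    SDer (n + n') (twoDer u u' (sgnD W n n')) := by
  set s := sgnD W n n' with hs
  set δ := twoDer u u' s with hδ
  have hap : ∀ x, δ x = W.tr X (u * x) • u' + (s * W.tr X (u' * x)) • u := twoDer_apply u u' s
  have huP := PH.of (W := W) hu
  have huP' := PH.of (W := W) hu'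
  have hpu : pa W X u = (-1 : W.K) ^ n • u := by
    rw [PH.par huP]
    congr 1
    exact neg_pow_congr (by omega)
  have hpu' : pa W X u' = (-1 : W.K) ^ n' • u' := by
    rw [PH.par huP']
    congr 1
    exact neg_pow_congr (by omega)
  have h0 : W.tr X u = 0 := W.tr_eq_zero hu (by omega)
  have h0' : W.tr X u' = 0 := W.tr_eq_zero hu' (by omega)
  have hone : δ 1 = 0 := by
    rw [hap, mul_one, mul_one, h0, h0', mul_zero, zero_smul, zero_smul, add_zero]
  have hpar : ∀ x, δ (pa W X x) = (-1 : W.K) ^ (n + n') • pa W X (δ x) := by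
    intro x
    refine hom_ind (p := fun x => δ (pa W X x) = (-1 : W.K) ^ (n + n') • pa W X (δ x)) ?_ ?_ ?_ x
    · intro a x hx
      have e1 : W.tr X (u * pa W X x) = (-1 : W.K) ^ n * W.tr X (u * x) := by
        rw [PH.par (PH.of hx), mul_smul_comm, map_smul, smul_eq_mul]
        by_cases ha : a = n
        · rw [ha]
        · rw [tr_mul_ne hu hx ha hd, mul_zero, mul_zero]
      have e2 : W.tr X (u' * pa W X x) = (-1 : W.K) ^ n' * W.tr X (u' * x) := by
        rw [PH.par (PH.of hx), mul_smul_comm, map_smul, smul_eq_mul]
        by_cases ha : a = n'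
        · rw [ha]
        · rw [tr_mul_ne hu' hx ha hd', mul_zero, mul_zero]
      rw [hap, hap, e1, e2, map_add, map_smul, map_smul, hpu, hpu', smul_add, smul_smul, smul_smul,
        smul_smul, smul_smul, pow_add]
      have e3 : (-1 : W.K) ^ n * (-1 : W.K) ^ n' * W.tr X (u * x) * (-1) ^ n' =
          (-1) ^ n * W.tr X (u * x) * ((-1) ^ n' * (-1) ^ n') := by ring
      have e4 : (-1 : W.K) ^ n * (-1 : W.K) ^ n' * (s * W.tr X (u' * x)) * (-1) ^ n =
          s * ((-1) ^ n' * W.tr X (u' * x)) * ((-1) ^ n * (-1) ^ n) := by ring
      rw [e3, e4, sgn_sq, sgn_sq, mul_one, mul_one]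
    · rw [map_zero, map_zero, map_zero, smul_zero]
    · intro x y hx hy
      rw [map_add, map_add, hx, hy, map_add, map_add, smul_add]
  refine ⟨hpar, ?_, ?_⟩
  · intro x y
    refine hom_ind (p := fun x => δ (x * y) = δ x * y + (pa W X ^ (n + n')) x * δ y)
      ?_ ?_ ?_ x
    · intro a x hx
      refine hom_ind (p := fun y => δ (x * y) = δ x * y + (pa W X ^ (n + n')) x * δ y)
        ?_ ?_ ?_ y
      · intro b y hy
        rw [pa_pow (PH.of hx), smul_mul_assoc]
        rcases Nat.eq_zero_or_pos a with ha | ha
        · subst ha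
          rw [W.gr_zero, Submodule.mem_span_singleton] at hx
          obtain ⟨r, rfl⟩ := hx
          rw [map_smul, hone, smul_zero, zero_mul, zero_add, mul_zero, pow_zero, one_smul,
            smul_mul_assoc, smul_mul_assoc, one_mul, one_mul, map_smul]
        rcases Nat.eq_zero_or_pos b with hb | hb
        · subst hb
          rw [W.gr_zero, Submodule.mem_span_singleton] at hy
          obtain ⟨r, rfl⟩ := hy
          rw [map_smul, hone, smul_zero, mul_zero, smul_zero, add_zero, mul_smul_comm,
            mul_smul_comm, mul_one, mul_one, map_smul]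
        have e0 : δ (x * y) = 0 := by
          rw [hap, h a b ha hb x hx y hy, h' a b ha hb x hx y hy, mul_zero, zero_smul, zero_smul,
            add_zero]
        rw [e0]
        refine (W.nondeg _ fun z => ?_).symm
        refine hom_ind (p := fun z => W.tr X ((δ x * y +
          (-1 : W.K) ^ ((n + n') * a) • (x * δ y)) * z) = 0) ?_ ?_ ?_ z
        · intro c z hz
          rcases Nat.eq_zero_or_pos c with hc | hc
          · subst hc
            rw [W.gr_zero, Submodule.mem_span_singleton] at hz
            obtain ⟨r, rfl⟩ := hz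
            rw [mul_smul_comm, mul_one, map_smul, map_add, map_smul, smul_eq_mul, smul_eq_mul]
            have e1 : W.tr X (x * u') = (-1 : W.K) ^ a * W.tr X (u' * x) := by
              have := tr_comm_gr hx u'
              rw [this, ← mul_assoc, sgn_sq, one_mul]
            have e2 : W.tr X (x * u) = (-1 : W.K) ^ a * W.tr X (u * x) := by
              have := tr_comm_gr hx u
              rw [this, ← mul_assoc, sgn_sq, one_mul]
            rw [hap x, hap y, add_mul, mul_add x, map_add, map_add, smul_mul_assoc, smul_mul_assoc,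
              mul_smul_comm, mul_smul_comm, map_smul, map_smul, map_smul, map_smul, e1, e2]
            simp only [smul_eq_mul]
            have e3 : W.tr X (u * x) * (1 + (-1 : W.K) ^ ((n + n') * a) * (-1) ^ a * s) = 0 := by
              by_cases han : a = n
              · subst han
                have e4 : (-1 : W.K) ^ ((a + n') * a) * (-1) ^ a * s = -1 := by
                  rw [hs, sgnD, mul_neg, ← pow_add, ← pow_add, neg_inj]
                  have e5 : (a + n') * a + a + a * n' = a * (a + 1) + 2 * (a * n') := by ring
                  rw [e5, pow_add, (Nat.even_mul_succ_self a).neg_one_pow,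
                    (even_two_mul _).neg_one_pow, one_mul]
                rw [e4, add_neg_cancel, mul_zero]
              · rw [tr_mul_ne hu hx han hd, zero_mul]
            have e4 : W.tr X (u' * x) * (s + (-1 : W.K) ^ ((n + n') * a) * (-1) ^ a) = 0 := by
              by_cases han : a = n'
              · subst han
                have e5 : (-1 : W.K) ^ ((n + a) * a) * (-1) ^ a = (-1) ^ (n * a) := by
                  rw [← pow_add]
                  apply neg_pow_congr
                  have e6 : (n + a) * a + a = n * a + a * (a + 1) := by ring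
                  have e7 := Nat.even_iff.1 (Nat.even_mul_succ_self a)
                  omega
                rw [e5, hs, sgnD, neg_add_cancel, mul_zero]
              · rw [tr_mul_ne hu' hx han hd', zero_mul]
            linear_combination r * W.tr X (u' * y) * e3 + r * W.tr X (u * y) * e4
          · rw [add_mul, map_add, smul_mul_assoc, map_smul]
            have e1 : W.tr X (δ x * y * z) = 0 := by
              rw [hap, add_mul, add_mul, smul_mul_assoc, smul_mul_assoc, smul_mul_assoc,
                smul_mul_assoc, map_add, map_smul, map_smul, mul_assoc, mul_assoc,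
                h b c hb hc y hy z hz, h' b c hb hc y hy z hz, smul_zero, smul_zero, add_zero]
            have e2 : W.tr X (x * δ y * z) = 0 := by
              rw [mul_assoc, ← tr_comm_zero hx, hap, add_mul, add_mul, smul_mul_assoc,
                smul_mul_assoc, smul_mul_assoc, smul_mul_assoc, map_add, map_smul, map_smul,
                mul_assoc, mul_assoc, h c a hc ha z hz x hx, h' c a hc ha z hz x hx, smul_zero,
                smul_zero, add_zero]
            rw [e1, e2, smul_zero, add_zero]
        · rw [mul_zero, map_zero]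
        · intro z z' hz hz'
          rw [mul_add, map_add, hz, hz', add_zero]
      · rw [mul_zero, map_zero, mul_zero, mul_zero, add_zero]
      · intro y y' hy hy'
        rw [mul_add, map_add, hy, hy', map_add, mul_add, mul_add]
        abel
    · rw [zero_mul, map_zero, map_zero, zero_mul, zero_mul, add_zero]
    · intro x x' hx hx'
      rw [add_mul, map_add, hx, hx', map_add, map_add, add_mul, add_mul]
      abel
  · intro x
    rw [hap, map_add, map_smul, map_smul, h0, h0', smul_zero, smul_zero, add_zero]

end Two

end Pool.Agent.Q200.LD
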