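import Pool.Agent.Q200.LD.Defs

/-!
# The filtration of the cohomology of the powers defined by a stable subspace
-/

open CategoryTheory AlgebraicGeometry TensorProduct

set_option linter.unusedSectionVars false

universe u v

namespace Pool.Agent.Q200.LD

open Module
open Pool.Agent.H914 Pool.Agent.H914.VarClass Pool.Agent.H914.VarClass.Obj
  Pool.Agent.H914.WeilCohomology
open Pool.Agent.Y133.Half
open Pool.Agent.Q60.NP (Family ClosedMul ClosedPull ClosedPush IsCoordinate MapsInto)

variable {k : Type u} [Field k] {𝒱 : VarClass k} {ops : CycleOps 𝒱}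
  {W : WeilCohomology.{u, v} ops} {X Y Z : 𝒱.Obj}

lemma hom_ind {p : W.H Y → Prop} (h : ∀ i, ∀ x ∈ W.gr Y i, p x) (h0 : p 0)
    (hadd : ∀ x y, p x → p y → p (x + y)) (x : W.H Y) : p x := by
  have h2 : x ∈ ⨆ i, W.gr Y i := by
    rw [(W.isInternal Y).submodule_iSup_eq_top]
    trivial
  exact Submodule.iSup_induction _ (motive := p) h2 h h0 hadd

/-- The trace form is graded-symmetric. -/
lemma tr_comm_gr {m : ℕ} {y : W.H Y} (hy : y ∈ W.gr Y m) (c : W.H Y) :
    W.tr Y (c * y) = (-1 : W.K) ^ m * W.tr Y (y * c) := by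
  refine hom_ind (p := fun c => W.tr Y (c * y) = (-1 : W.K) ^ m * W.tr Y (y * c)) ?_ ?_ ?_ c
  · intro i c hc
    by_cases h : i + m = 2 * Y.dim
    · rw [W.comm hc hy, map_smul, smul_eq_mul]
      congr 1
      apply neg_pow_congr
      have h1 : i % 2 = m % 2 := by omega
      rw [Nat.mul_mod, h1]
      rcases Nat.mod_two_eq_zero_or_one m with h2 | h2 <;> rw [h2]
    · rw [W.tr_eq_zero (W.mul_mem hc hy) h, W.tr_eq_zero (W.mul_mem hy hc) (by omega), mul_zero]
  · simp
  · intro x x' hx hx'
    rw [add_mul, mul_add, map_add, map_add, hx, hx', mul_add]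

lemma tr_comm_zero {m : ℕ} {y : W.H Y} (hy : y ∈ W.gr Y m) (c : W.H Y) :
    W.tr Y (c * y) = 0 ↔ W.tr Y (y * c) = 0 := by
  rw [tr_comm_gr hy c]
  constructor
  · intro h
    exact (mul_eq_zero.1 h).resolve_left (pow_ne_zero _ (neg_ne_zero.2 one_ne_zero))
  · intro h
    rw [h, mul_zero]

/-- Conditions on a subspace of the cohomology. -/
structure Good (R : Submodule W.K (W.H X)) : Prop where
  gr : ∀ x ∈ R, ∀ i, proj (W.isInternal X) i x ∈ R
  top : ∀ i, X.dim ≤ i → W.gr X i ≤ R
  one : 1 ∈ R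
  mul : ∀ x ∈ R, ∀ y ∈ R, x * y ∈ R

/-- The annihilator. -/
noncomputable def ann (R : Submodule W.K (W.H X)) : Submodule W.K (W.H X) where
  carrier := {y | ∀ r ∈ R, W.tr X (y * r) = 0}
  add_mem' {a b} ha hb r hr := by rw [add_mul, map_add, ha r hr, hb r hr, add_zero]
  zero_mem' r _ := by rw [zero_mul, map_zero]
  smul_mem' c a ha r hr := by rw [smul_mul_assoc, map_smul, ha r hr, smul_zero]

lemma mem_ann {R : Submodule W.K (W.H X)} {y : W.H X} :
    y ∈ ann R ↔ ∀ r ∈ R, W.tr X (y * r) = 0 := Iff.rfl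

lemma proj_sum (x : W.H X) :
    x = ∑ i ∈ Finset.range (2 * X.dim + 1), proj (W.isInternal X) i x := by
  have h1 := sum_proj (W.isInternal X) (N := 2 * X.dim + 1)
    (fun i hi => W.gr_eq_bot X i (by omega))
  have h2 := congrArg (fun F => F x) h1
  rw [LinearMap.sum_apply, Module.End.one_apply] at h2
  exact h2.symm

lemma tr_proj {i m : ℕ} {r : W.H X} (hr : r ∈ W.gr X m) (h : i + m = 2 * X.dim) (y : W.H X) :
    W.tr X (proj (W.isInternal X) i y * r) = W.tr X (y * r) := by
  refine hom_ind (p := fun y => W.tr X (proj (W.isInternal X) i y * r) = W.tr X (y * r))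
    ?_ ?_ ?_ y
  · intro j b hb
    by_cases hj : j = i
    · subst hj; rw [H914.proj_same _ hb]
    · rw [H914.proj_ne _ hb hj, zero_mul, map_zero, W.tr_eq_zero (W.mul_mem hb hr) (by omega)]
  · simp
  · intro b b' hb hb'
    rw [map_add, add_mul, add_mul, map_add, map_add, hb, hb']

section Good

variable {R : Submodule W.K (W.H X)} (hR : Good R)

include hR

lemma Good.mem_ann_iff {y : W.H X} :
    y ∈ ann R ↔ ∀ r ∈ R, ∀ i, r ∈ W.gr X i → W.tr X (y * r) = 0 := by
  constructor
  · intro h r hr i _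
    exact h r hr
  · intro h r hr
    rw [proj_sum r, Finset.mul_sum, map_sum]
    exact Finset.sum_eq_zero fun i _ => h _ (hR.gr r hr i) i (H914.proj_mem _ i r)

lemma Good.ann_gr {y : W.H X} (hy : y ∈ ann R) (i : ℕ) :
    proj (W.isInternal X) i y ∈ ann R := by
  rw [hR.mem_ann_iff]
  intro r hr m hm
  by_cases h : i + m = 2 * X.dim
  · rw [tr_proj hm h]
    exact hy r hr
  · exact W.tr_eq_zero (W.mul_mem (H914.proj_mem _ i y) hm) h

/-- A homogeneous element of the annihilator of degree at most `dim X` vanishes. -/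
lemma Good.ann_low {y : W.H X} (hy : y ∈ ann R) {i : ℕ} (hi : y ∈ W.gr X i) (h : i ≤ X.dim) :
    y = 0 := by
  apply W.nondeg
  intro b
  refine hom_ind (p := fun b => W.tr X (y * b) = 0) ?_ ?_ ?_ b
  · intro m b hb
    by_cases hm : i + m = 2 * X.dim
    · exact hy b (hR.top m (by omega) hb)
    · exact W.tr_eq_zero (W.mul_mem hi hb) hm
  · simp
  · intro b b' hb hb'
    rw [mul_add, map_add, hb, hb', add_zero]

lemma Good.ann_proj {y : W.H X} (hy : y ∈ ann R) {i : ℕ} (h : i ≤ X.dim) :
    proj (W.isInternal X) i y = 0 :=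
  hR.ann_low (hR.ann_gr hy i) (H914.proj_mem _ i y) h

/-- Elements which are sums of homogeneous elements of degree larger than `dim X`. -/
lemma Good.ann_le : ann R ≤ R := by
  intro y hy
  rw [proj_sum y]
  refine Submodule.sum_mem _ fun i _ => ?_
  by_cases h : i ≤ X.dim
  · rw [hR.ann_proj hy h]
    exact Submodule.zero_mem _
  · exact hR.top i (by omega) (H914.proj_mem _ i y)

lemma Good.mul_ann {x y : W.H X} (hx : x ∈ R) (hy : y ∈ ann R) : x * y ∈ ann R := by
  rw [hR.mem_ann_iff]
  intro r hr i hi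
  have h1 : ∀ j, W.tr X (proj (W.isInternal X) j x * y * r) = 0 := by
    intro j
    have hxj := H914.proj_mem (W.isInternal X) j x
    rw [mul_assoc, ← tr_comm_zero hxj, mul_assoc]
    exact hy _ (hR.mul r hr _ (hR.gr x hx j))
  rw [proj_sum x, Finset.sum_mul, Finset.sum_mul, map_sum]
  exact Finset.sum_eq_zero fun j _ => h1 j

lemma Good.ann_mul {x y : W.H X} (hx : x ∈ R) (hy : y ∈ ann R) : y * x ∈ ann R := by
  intro r hr
  rw [mul_assoc]
  exact hy _ (hR.mul x hx r hr)

lemma Good.ann_ind {y : W.H X} (hy : y ∈ ann R) {p : W.H X → Prop}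
    (h : ∀ i, X.dim < i → ∀ x ∈ W.gr X i, p x) (h0 : p 0)
    (hadd : ∀ x y, p x → p y → p (x + y)) : p y := by
  rw [proj_sum y]
  refine Finset.sum_induction _ p hadd h0 ?_
  intro i _
  by_cases hi : i ≤ X.dim
  · rw [hR.ann_proj hy hi]
    exact h0
  · exact h i (by omega) _ (H914.proj_mem _ i y)

lemma Good.ann_mul_any {y : W.H X} (hy : y ∈ ann R) (x : W.H X) : y * x ∈ R := by
  refine hR.ann_ind hy (p := fun y => y * x ∈ R) ?_ ?_ ?_
  · intro i hi y hy
    refine hom_ind (p := fun x => y * x ∈ R) ?_ ?_ ?_ x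
    · intro j x hx
      exact hR.top _ (by omega) (W.mul_mem hy hx)
    · rw [mul_zero]; exact Submodule.zero_mem _
    · intro a b ha hb
      rw [mul_add]; exact Submodule.add_mem _ ha hb
  · rw [zero_mul]; exact Submodule.zero_mem _
  · intro a b ha hb
    rw [add_mul]; exact Submodule.add_mem _ ha hb

lemma Good.any_mul_ann {y : W.H X} (hy : y ∈ ann R) (x : W.H X) : x * y ∈ R := by
  refine hR.ann_ind hy (p := fun y => x * y ∈ R) ?_ ?_ ?_
  · intro i hi y hy
    refine hom_ind (p := fun x => x * y ∈ R) ?_ ?_ ?_ x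
    · intro j x hx
      exact hR.top _ (by omega) (W.mul_mem hx hy)
    · rw [zero_mul]; exact Submodule.zero_mem _
    · intro a b ha hb
      rw [add_mul]; exact Submodule.add_mem _ ha hb
  · rw [mul_zero]; exact Submodule.zero_mem _
  · intro a b ha hb
    rw [mul_add]; exact Submodule.add_mem _ ha hb

lemma Good.ann_mul_ann {x y : W.H X} (hx : x ∈ ann R) (hy : y ∈ ann R) : x * y = 0 := by
  refine hR.ann_ind hx (p := fun x => x * y = 0) ?_ ?_ ?_
  · intro i hi x hx
    refine hR.ann_ind hy (p := fun y => x * y = 0) ?_ ?_ ?_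
    · intro j hj y hy
      have h1 := W.mul_mem hx hy
      rw [W.gr_eq_bot X _ (by omega)] at h1
      exact (Submodule.mem_bot _).1 h1
    · rw [mul_zero]
    · intro a b ha hb
      rw [mul_add, ha, hb, add_zero]
  · rw [zero_mul]
  · intro a b ha hb
    rw [add_mul, ha, hb, add_zero]

end Good

/-- The filtration of the cohomology of `X`. -/
noncomputable def fl (R : Submodule W.K (W.H X)) (w : ℤ) : Submodule W.K (W.H X) :=
  if w ≤ -2 then ⊥ else if w ≤ -1 then ann R else if w ≤ 0 then R else ⊤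

lemma fl_bot (R : Submodule W.K (W.H X)) {w : ℤ} (h : w ≤ -2) : fl R w = ⊥ := if_pos h

lemma fl_neg (R : Submodule W.K (W.H X)) : fl R (-1) = ann R := by
  rw [fl, if_neg (by omega), if_pos le_rfl]

lemma fl_zero (R : Submodule W.K (W.H X)) : fl R 0 = R := by
  rw [fl, if_neg (by omega), if_neg (by omega), if_pos le_rfl]

lemma fl_pos (R : Submodule W.K (W.H X)) {w : ℤ} (h : 1 ≤ w) : fl R w = ⊤ := by
  rw [fl, if_neg (by omega), if_neg (by omega), if_neg (by omega)]

lemma Good.fl_mono {R : Submodule W.K (W.H X)} (hR : Good R) {w w' : ℤ} (h : w ≤ w') :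
    fl R w ≤ fl R w' := by
  rcases lt_or_ge w (-1) with h1 | h1
  · rw [fl_bot R (by omega)]; exact bot_le
  rcases lt_or_ge 0 w' with h2 | h2
  · rw [fl_pos R (w := w') (by omega)]; exact le_top
  rcases h1.eq_or_lt with h3 | h3
  · rw [← h3, fl_neg]
    rcases h2.eq_or_lt with h4 | h4
    · rw [h4, fl_zero]; exact hR.ann_le
    · obtain rfl : w' = -1 := by omega
      rw [fl_neg]
  · obtain rfl : w = 0 := by omega
    obtain rfl : w' = 0 := by omega
    exact le_rfl

lemma Good.fl_mul {R : Submodule W.K (W.H X)} (hR : Good R) {w w' : ℤ} {x y : W.H X}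
    (hx : x ∈ fl R w) (hy : y ∈ fl R w') : x * y ∈ fl R (w + w') := by
  rcases lt_or_ge w (-1) with h1 | h1
  · rw [fl_bot R (by omega), Submodule.mem_bot] at hx
    rw [hx, zero_mul]; exact Submodule.zero_mem _
  rcases lt_or_ge w' (-1) with h2 | h2
  · rw [fl_bot R (by omega), Submodule.mem_bot] at hy
    rw [hy, mul_zero]; exact Submodule.zero_mem _
  rcases lt_or_ge 0 (w + w') with h3 | h3
  · rw [fl_pos R (by omega)]; trivial
  rcases h1.eq_or_lt with h4 | h4
  · rw [← h4, fl_neg] at hx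
    rcases h2.eq_or_lt with h5 | h5
    · rw [← h5, fl_neg] at hy
      rw [hR.ann_mul_ann hx hy]; exact Submodule.zero_mem _
    · rcases (show 0 ≤ w' by omega).eq_or_lt with h6 | h6
      · rw [← h6, fl_zero] at hy
        rw [← h4, ← h6, add_zero, fl_neg]
        exact hR.ann_mul hy hx
      · obtain rfl : w' = 1 := by omega
        rw [← h4, show (-1 : ℤ) + 1 = 0 by norm_num, fl_zero]
        exact hR.ann_mul_any hx y
  · rcases (show 0 ≤ w by omega).eq_or_lt with h5 | h5
    · rw [← h5, fl_zero] at hx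
      rw [← h5, zero_add]
      rcases h2.eq_or_lt with h6 | h6
      · rw [← h6, fl_neg] at hy ⊢
        exact hR.mul_ann hx hy
      · obtain rfl : w' = 0 := by omega
        rw [fl_zero] at hy ⊢
        exact hR.mul x hx y hy
    · obtain rfl : w = 1 := by omega
      obtain rfl : w' = -1 := by omega
      rw [fl_neg] at hy
      rw [show (1 : ℤ) + -1 = 0 by norm_num, fl_zero]
      exact hR.any_mul_ann hy x

/-! ### External products -/

lemma ep_zero (x : Fin 1 → W.H X) : extProd W X 0 x = x 0 := by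
  rw [extProd, List.ofFn_succ, List.ofFn_zero, List.prod_singleton]
  exact W.map_id _ _

lemma ep_succ (n : ℕ) (x : Fin (n + 2) → W.H X) : extProd W X (n + 1) x =
    xp W (X := pw X n) (Y := X) (extProd W X n fun i => x i.castSucc) (x (Fin.last _)) := by
  rw [extProd, extProd, List.ofFn_succ', List.prod_concat, prj_last, xp, map_list_prod,
    List.map_ofFn]
  congr 3
  funext i
  rw [prj_castSucc, W.map_comp]
  rfl

lemma ep_PH {n : ℕ} {x : Fin (n + 1) → W.H X} {a : Fin (n + 1) → ℕ}
    (hx : ∀ i, x i ∈ PH W X (a i)) : extProd W X n x ∈ PH W (pw X n) (∑ i, a i) := by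
  induction n with
  | zero =>
    rw [ep_zero, Fin.sum_univ_one]
    exact hx 0
  | succ n ih =>
    rw [ep_succ, Fin.sum_univ_castSucc]
    exact xp_mem (ih fun i => hx i.castSucc) (hx _)

lemma ep_mem {n : ℕ} {x : Fin (n + 1) → W.H X} {a : Fin (n + 1) → ℕ}
    (hx : ∀ i, x i ∈ W.gr X (a i)) : extProd W X n x ∈ W.gr (pw X n) (∑ i, a i) := by
  induction n with
  | zero =>
    rw [ep_zero, Fin.sum_univ_one]
    exact hx 0
  | succ n ih =>
    rw [ep_succ, Fin.sum_univ_castSucc]
    exact W.mul_mem (W.map_mem _ (ih fun i => hx i.castSucc)) (W.map_mem _ (hx _))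

lemma tr_ep (n : ℕ) (x : Fin (n + 1) → W.H X) :
    W.tr (pw X n) (extProd W X n x) = ∏ i, W.tr X (x i) := by
  induction n with
  | zero => rw [ep_zero, Fin.prod_univ_one]; rfl
  | succ n ih =>
    rw [ep_succ, Fin.prod_univ_castSucc, ← ih]
    exact tr_xp (W := W) (X := pw X n) (Y := X) _ _

/-- The product of two external products of homogeneous classes. -/
lemma ep_mul {n : ℕ} {x y : Fin (n + 1) → W.H X} {a b : Fin (n + 1) → ℕ}
    (hx : ∀ i, x i ∈ PH W X (a i)) (hy : ∀ i, y i ∈ PH W X (b i)) :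
    ∃ s : W.K, s ≠ 0 ∧ extProd W X n x * extProd W X n y = s • extProd W X n (x * y) := by
  induction n with
  | zero =>
    refine ⟨1, one_ne_zero, ?_⟩
    rw [ep_zero, ep_zero, ep_zero]
    exact (one_smul W.K (x 0 * y 0)).symm
  | succ n ih =>
    obtain ⟨s, hs, h⟩ := ih (x := fun i => x i.castSucc) (y := fun i => y i.castSucc)
      (fun i => hx i.castSucc) fun i => hy i.castSucc
    refine ⟨(-1) ^ (a (Fin.last _) * ∑ i, b (Fin.castSucc i)) * s,
      mul_ne_zero (pow_ne_zero _ (neg_ne_zero.2 one_ne_zero)) hs, ?_⟩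
    rw [ep_succ, ep_succ, ep_succ]
    have h1 := xp_mul (W := W) (X := pw X n) (Y := X) (extProd W X n fun i => x i.castSucc)
      (extProd W X n fun i => y i.castSucc) (x (Fin.last _)) (y (Fin.last _)) (hx _)
      (ep_PH fun i => hy i.castSucc)
    refine h1.trans ?_
    rw [h, xp_smul_left, smul_smul]
    rfl

lemma ep_one (n : ℕ) : extProd W X n 1 = 1 := by
  induction n with
  | zero => rw [ep_zero]; rfl
  | succ n ih =>
    rw [ep_succ]
    have h1 : (fun i : Fin (n + 1) => (1 : Fin (n + 2) → W.H X) i.castSucc) = 1 := rfl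
    rw [h1, ih, Pi.one_apply, xp, map_one, map_one, one_mul]
    rfl

lemma ep_single (n : ℕ) (i : Fin (n + 1)) (x : W.H X) :
    extProd W X n (Pi.mulSingle i x) = W.map (prj X n i) x := by
  induction n with
  | zero =>
    obtain rfl : i = 0 := by omega
    rw [ep_zero, Pi.mulSingle_eq_same]
    exact (W.map_id X x).symm
  | succ n ih =>
    rw [ep_succ]
    induction i using Fin.lastCases with
    | last =>
      have h1 : (fun i : Fin (n + 1) => (Pi.mulSingle (Fin.last (n + 1)) x :
          Fin (n + 2) → W.H X) i.castSucc) = 1 := by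
        funext i
        rw [Pi.mulSingle_eq_of_ne (Fin.castSucc_lt_last i).ne, Pi.one_apply]
      rw [h1, ep_one, Pi.mulSingle_eq_same, xp, map_one, one_mul, prj_last]
      rfl
    | cast i =>
      have h1 : (fun j : Fin (n + 1) => (Pi.mulSingle i.castSucc x :
          Fin (n + 2) → W.H X) j.castSucc) = Pi.mulSingle i x := by
        funext j
        by_cases h : j = i
        · subst h; rw [Pi.mulSingle_eq_same, Pi.mulSingle_eq_same]
        · rw [Pi.mulSingle_eq_of_ne h, Pi.mulSingle_eq_of_ne]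
          exact fun h' => h (Fin.castSucc_injective _ h')
      rw [h1, ih, Pi.mulSingle_eq_of_ne (Fin.castSucc_lt_last i).ne', xp, map_one, mul_one,
        prj_castSucc]
      exact (W.map_comp _ _ _).symm

/-- The external product as a multilinear map. -/
noncomputable def epM (W : WeilCohomology.{u, v} ops) (X : 𝒱.Obj) (n : ℕ) :
    MultilinearMap W.K (fun _ : Fin (n + 1) => W.H X) (W.H (pw X n)) :=
  (MultilinearMap.mkPiAlgebraFin W.K (n + 1) (W.H (pw X n))).compLinearMap
    fun i => (W.map (prj X n i)).toLinearMap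

lemma epM_apply (n : ℕ) (x : Fin (n + 1) → W.H X) : epM W X n x = extProd W X n x := by
  rw [epM, MultilinearMap.compLinearMap_apply, MultilinearMap.mkPiAlgebraFin_apply, extProd]
  rfl

end Pool.Agent.Q200.LD
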