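import Pool.Agent.Q200.LD.Cyc

/-!
# The inverse of the Lefschetz operator and cycles of small dimension or codimension
-/

open CategoryTheory AlgebraicGeometry TensorProduct

set_option linter.unusedSectionVars false

universe u v

namespace Pool.Agent.Q200.LD

open Module
open Pool.Agent.H914 Pool.Agent.H914.VarClass Pool.Agent.H914.VarClass.Obj
  Pool.Agent.H914.WeilCohomology
open Pool.Agent.Y133.Half Pool.Agent.H281R3.HT Pool.Agent.W536.RR
open Pool.Agent.Q60.NP (Family ClosedMul ClosedPull ClosedPush IsCoordinate MapsInto)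

variable {k : Type u} [Field k] {𝒱 : VarClass k} {ops : CycleOps 𝒱}
  {W : WeilCohomology.{u, v} ops} {X Y Z : 𝒱.Obj} {R : Submodule W.K (W.H X)}

lemma cl_mem_algSpan {j : ℕ} {z : Y.Cycles} (hz : Y.IsCyc j z) : W.cl Y z ∈ algSpan W Y := by
  rw [← algSet_span]
  exact Submodule.subset_span ⟨j, z, hz, rfl⟩

lemma proj_algSpan {c : W.H Y} (hc : c ∈ algSpan W Y) (i : ℕ) :
    proj (W.isInternal Y) i c ∈ algSpan W Y := by
  refine algSpan_induction (p := fun c => proj (W.isInternal Y) i c ∈ algSpan W Y)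
    ?_ ?_ ?_ ?_ hc
  · rw [map_zero]; exact Submodule.zero_mem _
  · intro a b ha hb
    rw [map_add]; exact Submodule.add_mem _ ha hb
  · intro r a ha
    rw [map_smul]; exact Submodule.smul_mem _ _ ha
  · intro j z hz
    by_cases h : 2 * j = i
    · subst h
      rw [H914.proj_same _ (W.cl_mem hz)]
      exact cl_mem_algSpan hz
    · rw [H914.proj_ne _ (W.cl_mem hz) h]
      exact Submodule.zero_mem _

/-- Reduction to homogeneous classes. -/
lemma ep_reduce {n : ℕ} {N : Type*} [AddCommGroup N] [Module W.K N] (F : W.H (pw X n) →ₗ[W.K] N)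
    (M : Submodule W.K N) {R : Submodule W.K (W.H X)}
    (hR : ∀ x ∈ R, ∀ i, proj (W.isInternal X) i x ∈ R)
    (h : ∀ (x : Fin (n + 1) → W.H X) (a : Fin (n + 1) → ℕ), (∀ i, x i ∈ R) →
      (∀ i, x i ∈ W.gr X (a i)) → F (extProd W X n x) ∈ M)
    {x : Fin (n + 1) → W.H X} (hx : ∀ i, x i ∈ R) : F (extProd W X n x) ∈ M := by
  have h1 : x = fun i => ∑ m : Fin (2 * X.dim + 1), proj (W.isInternal X) m (x i) := by
    funext i
    rw [← Finset.sum_range fun m => proj (W.isInternal X) m (x i)]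
    exact proj_sum (x i)
  rw [← epM_apply, h1, MultilinearMap.map_sum, map_sum]
  refine Submodule.sum_mem _ fun r _ => ?_
  rw [epM_apply]
  exact h _ (fun i => (r i : ℕ)) (fun i => hR _ (hx i) _) fun i => H914.proj_mem _ _ _

section Low

variable {ι : Type} [Fintype ι] [DecidableEq ι] {e : Basis ι W.K (W.H X)} {a b : ι → ℕ}
  {ω : ι → ℤ} {f : ι → W.H X}

lemma ep_FF (hR : Good R) {n : ℕ} {x : Fin (n + 1) → W.H X} (hx : ∀ i, x i ∈ R) :
    extProd W X n x ∈ FF R n 0 := by
  refine ep_reduce (F := LinearMap.id) (M := FF R n 0) hR.gr ?_ hx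
  intro x a hx ha
  refine FF_gen (a := a) (ω := fun _ => 0) (fun i => ⟨ha i, ?_⟩) (by simp)
  rw [fl_zero]
  exact hx i

lemma FF_le (hR : Good R) {c : W.H X} (hc : c ∈ FF (X := X) R 0 0) : c ∈ R := by
  rw [FF] at hc
  refine Submodule.span_induction (p := fun (c : W.H X) _ => c ∈ R) ?_ (Submodule.zero_mem _)
    (fun _ _ _ _ => Submodule.add_mem _) (fun r _ _ => Submodule.smul_mem _ r) hc
  rintro _ ⟨x, a, ω, hx, hω, rfl⟩
  rw [ep_zero]
  rw [Fin.sum_univ_one] at hω
  have h1 := hR.fl_mono hω (hx 0).2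
  rwa [fl_zero] at h1

lemma coord_prj (n : ℕ) (i : Fin (n + 1)) :
    IsCoordinate (X := X) (m := n) (n := 0) (prj X n i) :=
  ⟨fun _ => i, fun _ => Category.comp_id _⟩

/-- The filtration is stable under the operations defined by its elements. -/
lemma FF_stable (hR : Good R) (hA : Adp R e a b ω f) {n : ℕ} {c : W.H (pw X n)}
    (hc : c ∈ FF R n 0) {x : Fin (n + 1) → W.H X} (hx : ∀ i, x i ∈ R) (i : Fin (n + 1)) :
    W.push (prj X n i) (c * extProd W X n x) ∈ R := by
  have h1 := hR.FF_mul hc (ep_FF hR hx)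
  rw [add_zero] at h1
  exact FF_le hR (hA.FF_push hR (coord_prj n i) h1)

lemma tr_corr (c : W.H (X.prod X)) (x y : W.H X) : W.tr (X.prod X)
    (c * (W.map (fst X X) x * W.map (snd X X) y)) = W.tr X (W.corr c x * y) := by
  rw [← mul_assoc, corr_apply, W.tr_push]

/-- The Künneth projectors belong to the filtration. -/
lemma kunneth_mem (hR : Good R) (hA : Adp R e a b ω f) {i : ℕ} {c : W.H (pw X 1)}
    (hc : IsProjector (W.gr X) i (W.corr (X := X) (Y := X) c)) : c ∈ FF R 1 0 := by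
  refine hA.FF_of_orth fun x a' ω' hx hω' => ?_
  have hgr := ep_mem (W := W) fun i => (hx i).1
  rw [← tr_comm_zero hgr]
  have h1 : W.tr (pw X 1) (c * extProd W X 1 x) = W.tr X (W.corr (X := X) (Y := X) c (x 0) *
      x 1) := by
    rw [ep_two]
    exact tr_corr c (x 0) (x 1)
  rw [h1, hc (a' 0) (x 0) (hx 0).1]
  by_cases h : a' 0 = i
  · rw [if_pos h]
    rw [Fin.sum_univ_two] at hω'
    have h2 := hR.fl_mono (w' := -1) (by omega) (hR.fl_mul (hx 0).2 (hx 1).2)
    rw [fl_neg] at h2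
    have h3 := h2 1 hR.one
    rwa [mul_one] at h3
  · rw [if_neg h, zero_mul, map_zero]

/-- **The filtration is a family as in the definition.** -/
theorem isLowFamily_FF (hS : IsStableSpace W X R) (hA : Adp R e a b ω f) {g : ℕ} (hg : 0 < g)
    (hlow : ∀ i, i < g ∨ X.dim ≤ i → W.gr X i ≤ R) {D : X.Cycles} (hD : X.IsCyc 1 D)
    (hHL : HardLefschetz W X D) : IsLowFamily g (fun n => FF R n 0) := by
  have hR := hS.good hg hlow
  refine ⟨?_, ?_, ?_, ?_, ?_⟩
  · rintro n j (hj | hd) z hz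
    · exact codim_mem hR hS hA (fun i hi => hlow i (Or.inl hi)) hD hHL hj (cl_mem_algSpan hz)
        (W.cl_mem hz)
    · exact low_mem hR hS hA (cl_mem_algSpan hz) (W.cl_mem hz) hd
  · intro i c hc
    exact kunneth_mem hR hA hc
  · intro n c hc d hd
    have h1 := hR.FF_mul hc hd
    rwa [add_zero] at h1
  · intro m n f hf c hc
    exact hR.FF_pull hf hc
  · intro m n f hf c hc
    exact hA.FF_push hR hf hc

end Low

lemma lowClasses_le {g : ℕ} {V : Family W X} (hV : IsLowFamily g V) (n : ℕ) :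
    lowClasses W X g n ≤ V n :=
  iInf_le (fun V : {V : Family W X // IsLowFamily g V} => V.1 n) ⟨V, hV⟩

lemma mem_lowClasses {g n : ℕ} {c : W.H (pw X n)} (h : ∀ V : Family W X, IsLowFamily g V →
    c ∈ V n) : c ∈ lowClasses W X g n := by
  rw [lowClasses, Submodule.mem_iInf]
  exact fun V => h V.1 V.2

lemma pow_gr {D : X.Cycles} (hD : X.IsCyc 1 D) (m : ℕ) : W.cl X D ^ m ∈ W.gr X (2 * m) := by
  induction m with
  | zero => rw [pow_zero, mul_zero]; exact W.one_mem X
  | succ m ih =>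
    rw [pow_succ]
    have h1 := W.mul_mem ih (W.cl_mem hD)
    rwa [show 2 * m + 2 * 1 = 2 * (m + 1) by ring] at h1

/-- **First part.** -/
theorem main_stable {D : X.Cycles} (hD : X.IsCyc 1 D) (hHL : HardLefschetz W X D) {g : ℕ}
    (hg : 0 < g) (hS : IsStableSpace W X R)
    (hlow : ∀ i, i < g ∨ X.dim ≤ i → W.gr X i ≤ R) :
    (∀ n, ∀ c ∈ lowClasses W X g n, IsStableUnder W X R n c) ∧
    ∀ i < X.dim, InverseGenerated W X D g i → W.gr X i ≤ R := by
  have hR := hS.good hg hlow
  obtain ⟨ι, hι, hι', e, a, b, ω, f, hA⟩ := hR.exists_adp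
  have hF := isLowFamily_FF hS hA hg hlow hD hHL
  have h1 : ∀ n, ∀ c ∈ lowClasses W X g n, ∀ x : Fin (n + 1) → W.H X, (∀ i, x i ∈ R) → ∀ i,
      W.push (prj X n i) (c * extProd W X n x) ∈ R := fun n c hc x hx i =>
    FF_stable hR hA (lowClasses_le hF n hc) hx i
  refine ⟨h1, ?_⟩
  rintro i hi ⟨c, hc, hinv⟩ x hx
  have hy : W.cl X D ^ (X.dim - i) * x ∈ R := by
    refine hlow (2 * (X.dim - i) + i) (Or.inr (by omega)) (W.mul_mem (pow_gr hD _) hx)
  have h2 := h1 1 c hc ![W.cl X D ^ (X.dim - i) * x, 1] (by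
    intro j
    fin_cases j
    · exact hy
    · exact hR.one) 1
  rw [ep_two, prj1_one] at h2
  have h3 := (corr_apply W (X := X) (Y := X) c _).symm.trans (hinv x hx)
  rw [← h3]
  have h4 : W.map (snd X X) ((![W.cl X D ^ (X.dim - i) * x, 1] : Fin 2 → W.H X) 1) = 1 :=
    map_one _
  rw [h4, mul_one] at h2
  exact h2

/-- The subspace of the classes whose components of degree less than `dim X` are algebraic. -/
noncomputable def R0 (W : WeilCohomology.{u, v} ops) (X : 𝒱.Obj) : Submodule W.K (W.H X) :=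
  ⨅ (i : ℕ) (_ : i < X.dim), (algSpan W X).comap (proj (W.isInternal X) i)

lemma mem_R0 {x : W.H X} : x ∈ R0 W X ↔
    ∀ i < X.dim, proj (W.isInternal X) i x ∈ algSpan W X := by
  simp only [R0, Submodule.mem_iInf, Submodule.mem_comap]

lemma proj_proj_eq (i j : ℕ) (x : W.H X) : proj (W.isInternal X) i (proj (W.isInternal X) j x) =
    if j = i then proj (W.isInternal X) i x else 0 := by
  by_cases h : j = i
  · subst h
    rw [if_pos rfl, H914.proj_same _ (H914.proj_mem _ j x)]
  · rw [if_neg h, H914.proj_ne _ (H914.proj_mem _ j x) h]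

lemma R0_gr {x : W.H X} (hx : x ∈ R0 W X) (i : ℕ) : proj (W.isInternal X) i x ∈ R0 W X := by
  rw [mem_R0] at hx ⊢
  intro j hj
  rw [proj_proj_eq]
  by_cases h : i = j
  · rw [if_pos h]
    exact hx j hj
  · rw [if_neg h]
    exact Submodule.zero_mem _

lemma R0_top {i : ℕ} (hi : X.dim ≤ i) : W.gr X i ≤ R0 W X := by
  intro x hx
  rw [mem_R0]
  intro j hj
  rw [H914.proj_ne _ hx (by omega)]
  exact Submodule.zero_mem _

lemma R0_alg : algSpan W X ≤ R0 W X := fun _ hx => mem_R0.2 fun i _ => proj_algSpan hx i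

/-- The subspace is stable. -/
theorem R0_stable : IsStableSpace W X (R0 W X) := by
  refine ⟨?_, ?_⟩
  · intro x hx
    rw [proj_sum x]
    exact Submodule.sum_mem _ fun i _ => Submodule.mem_iSup_of_mem i
      ⟨R0_gr hx i, H914.proj_mem _ i x⟩
  · intro n j z hd hz x hx i
    refine ep_reduce (F := W.push (prj X n i) ∘ₗ LinearMap.mulLeft W.K (W.cl (pw X n) z))
      (M := R0 W X) (fun x hx i => R0_gr hx i) ?_ hx
    intro x a hx ha
    rw [LinearMap.comp_apply, LinearMap.mulLeft_apply]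
    by_cases h : ∀ l, a l < X.dim
    · apply R0_alg
      refine algSpan_push _ (algSpan_mul (cl_mem_algSpan hz) ?_)
      have h2 : ∀ (N : ℕ) (t : Fin N → W.H (pw X n)), (∀ i, t i ∈ algSpan W (pw X n)) →
          (List.ofFn t).prod ∈ algSpan W (pw X n) := by
        intro N
        induction N with
        | zero => intro t _; rw [List.ofFn_zero, List.prod_nil]; exact one_mem_algSpan
        | succ N ih =>
          intro t ht
          rw [List.ofFn_succ, List.prod_cons]
          exact algSpan_mul (ht 0) (ih _ fun i => ht i.succ)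
      refine h2 _ _ fun l => algSpan_map _ ?_
      have h3 := mem_R0.1 (hx l) (a l) (h l)
      rwa [H914.proj_same _ (ha l)] at h3
    · push Not at h
      obtain ⟨l, hl⟩ := h
      have h1 := W.push_mem (prj X n i) (W.mul_mem (W.cl_mem hz) (ep_mem (W := W) ha))
      have h2 : a l ≤ ∑ l, a l :=
        Finset.single_le_sum (f := a) (fun _ _ => Nat.zero_le _) (Finset.mem_univ l)
      obtain ⟨m, hm⟩ : ∃ m : ℕ, ((2 * j + ∑ l, a l : ℕ) : ℤ) +
          2 * ((X.dim : ℤ) - (pw X n).dim) = (m : ℤ) :=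
        Int.eq_ofNat_of_zero_le (by omega)
      rw [hm, grZ_natCast] at h1
      exact R0_top (by omega) h1

/-- Algebraic classes on `X` are generated. -/
lemma algSpan_le_low {g : ℕ} {V : Family W X} (hV : IsLowFamily g V) : algSpan W X ≤ V 0 := by
  intro c hc
  refine algSpan_induction (p := fun c : W.H X => c ∈ V 0) (Submodule.zero_mem _)
    (fun a b ha hb => Submodule.add_mem _ ha hb) (fun r a ha => Submodule.smul_mem _ _ ha) ?_ hc
  intro j z hz
  exact hV.cycles 0 j (Or.inr (Nat.le_add_left _ _)) z hz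

/-- **If the cohomology of degree `i` is spanned by algebraic classes then the inverse of the
Lefschetz operator is generated.** -/
theorem exists_inverse {D : X.Cycles} (hD : X.IsCyc 1 D) (hHL : HardLefschetz W X D) {g i : ℕ}
    (hi : i < X.dim) (halg : W.gr X i ≤ algSpan W X) :
    InverseGenerated W X D g i := by
  classical
  set L : W.gr X i →ₗ[W.K] W.H X :=
    (LinearMap.mulLeft W.K (W.cl X D ^ (X.dim - i))).comp (W.gr X i).subtype with hL
  have hLi : LinearMap.ker L = ⊥ := by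
    rw [LinearMap.ker_eq_bot']
    rintro ⟨x, hx⟩ h
    have h1 := (hHL i hi.le).1 x hx
    rw [LinearMap.pow_mulLeft] at h1
    exact Subtype.ext (h1 h)
  obtain ⟨G, hG⟩ := LinearMap.exists_leftInverse_of_injective L hLi
  set bb := Module.finBasis W.K (W.gr X i) with hbb
  have h1 : ∀ m, ∃ y ∈ W.gr X i, ∀ x (hx : x ∈ W.gr X i),
      W.tr X (y * (W.cl X D ^ (X.dim - i) * x)) = bb.repr ⟨x, hx⟩ m := by
    intro m
    obtain ⟨y, hy⟩ := pd_surjective (W := W) (X := X) (bb.coord m ∘ₗ G)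
    refine ⟨proj (W.isInternal X) i y, H914.proj_mem _ i y, fun x hx => ?_⟩
    have h2 := W.mul_mem (pow_gr hD (X.dim - i)) hx
    rw [tr_proj h2 (by omega)]
    have h3 := congrArg (fun F : Module.Dual W.K (W.H X) =>
      F (W.cl X D ^ (X.dim - i) * x)) hy
    rw [pd_apply] at h3
    rw [h3]
    change bb.repr (G (L ⟨x, hx⟩)) m = _
    have h4 : G (L ⟨x, hx⟩) = ⟨x, hx⟩ := congrArg (fun F => F ⟨x, hx⟩) hG
    rw [h4]
  choose y hy1 hy2 using h1
  set s : W.K := (-1) ^ (i * (2 * (X.dim - i) + i)) with hs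
  have hss : s * s = 1 := by rw [hs, ← mul_pow]; simp
  refine ⟨(∑ m, s • xp W (y m) (bb m : W.H X) : W.H (X.prod X)), ?_, ?_⟩
  · refine mem_lowClasses fun V hV => ?_
    have hsum : ∀ t : Fin (finrank W.K (W.gr X i)) → W.H (X.prod X),
        (∀ m, (t m : W.H (pw X 1)) ∈ V 1) → ((∑ m, t m : W.H (X.prod X)) : W.H (pw X 1)) ∈ V 1 :=
      fun t ht => Submodule.sum_mem (V 1) fun m _ => ht m
    refine hsum _ fun m => Submodule.smul_mem (V 1) s ?_
    have h5 : ∀ z ∈ W.gr X i, ∀ l : Fin 2, (W.map (prj X 1 l) z) ∈ V 1 := by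
      intro z hz l
      exact hV.pull (m := 1) (n := 0) (prj X 1 l) (coord_prj 1 l) z
        (algSpan_le_low hV (halg hz))
    have h6 := h5 _ (hy1 m) 0
    have h7 := h5 _ (bb m).2 1
    rw [prj1_zero] at h6
    rw [prj1_one] at h7
    exact hV.mul 1 _ h6 _ h7
  · intro x hx
    have h2 := PH.of (W.mul_mem (pow_gr hD (X.dim - i)) hx)
    have h3 : ∀ m, W.corr (s • xp W (y m) (bb m : W.H X))
        (W.cl X D ^ (X.dim - i) * x) = bb.repr ⟨x, hx⟩ m • (bb m : W.H X) := by
      intro m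
      rw [W.corr_smul, LinearMap.smul_apply, corr_xp (y m) (PH.of (bb m).2) h2, hy2 m x hx,
        smul_smul, ← mul_assoc, hss, one_mul]
    have h4 : ∀ t : Fin (finrank W.K (W.gr X i)) → W.H (X.prod X),
        W.corr (∑ m, t m) (W.cl X D ^ (X.dim - i) * x) =
          ∑ m, W.corr (t m) (W.cl X D ^ (X.dim - i) * x) := by
      intro t
      rw [corr_apply, Finset.sum_mul, map_sum]
      rfl
    have h5 : W.corr (X := X) (Y := X) (∑ m, s • xp W (y m) (bb m : W.H X))
        (W.cl X D ^ (X.dim - i) * x) = x := by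
      rw [h4, Finset.sum_congr rfl fun m _ => h3 m]
      have h6 := congrArg (W.gr X i).subtype (bb.sum_repr ⟨x, hx⟩)
      rw [map_sum] at h6
      simpa only [map_smul, Submodule.subtype_apply] using h6
    exact h5

/-- **Second part.** -/
theorem main_alg {D : X.Cycles} (hD : X.IsCyc 1 D) (hHL : HardLefschetz W X D) {g : ℕ}
    (hg : 0 < g) (hlow : ∀ i < g, SpannedByCycles W X i) {i : ℕ} (hi : i < X.dim) :
    InverseGenerated W X D g i ↔ SpannedByCycles W X i := by
  refine ⟨fun h => ?_, fun h => exists_inverse hD hHL hi h⟩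
  have h1 := (main_stable (R := R0 W X) hD hHL hg R0_stable (by
    rintro j (hj | hj)
    · exact (hlow j hj).trans R0_alg
    · exact R0_top hj)).2 i hi h
  intro x hx
  have h2 := mem_R0.1 (h1 hx) i hi
  rwa [H914.proj_same _ hx] at h2

end Pool.Agent.Q200.LD
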