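import Pool.Agent.Q200.LD.DefsC
import Pool.Agent.Q200.LD.DerK
import Pool.Agent.Q200.LD.Main

/-!
# The small classes are killed by the superderivations
-/

open CategoryTheory AlgebraicGeometry TensorProduct

set_option linter.unusedSectionVars false

universe u v

namespace Pool.Agent.Q200.LD

open Module
open Pool.Agent.H914 Pool.Agent.H914.VarClass Pool.Agent.H914.VarClass.Obj
  Pool.Agent.H914.WeilCohomology
open Pool.Agent.Y133.Half Pool.Agent.H281R3.HT Pool.Agent.W536.RR
open Pool.Agent.Q60.NP (Family ClosedMul ClosedPull ClosedPush IsCoordinate MapsInto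
  mem_PH_of_par)

variable {k : Type u} [Field k] {𝒱 : VarClass k} {ops : CycleOps 𝒱}
  {W : WeilCohomology.{u, v} ops} {X Y Z : 𝒱.Obj} {P : 𝒱.Obj → Prop}

/-- The trace of the product with an external product, in terms of the push-forward to a factor. -/
lemma tr_factor' {n : ℕ} {x : Fin (n + 1) → W.H X} {a' : Fin (n + 1) → ℕ}
    (hx : ∀ i, x i ∈ PH W X (a' i)) (l : Fin (n + 1)) : ∃ s : W.K, ∀ c,
      W.tr (pw X n) (c * extProd W X n x) = s * W.tr X
        (W.push (prj X n l) (c * extProd W X n (Function.update x l 1)) * x l) := by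
  have h1 : Function.update x l 1 * Pi.mulSingle l (x l) = x := by
    funext i
    rw [Pi.mul_apply]
    by_cases h : i = l
    · subst h
      rw [Function.update_self, Pi.mulSingle_eq_same, one_mul]
    · rw [Function.update_of_ne h, Pi.mulSingle_eq_of_ne h, mul_one]
  obtain ⟨s, hs, h2⟩ := ep_mul (W := W) (X := X) (n := n) (x := Function.update x l 1)
    (y := Pi.mulSingle l (x l)) (a := Function.update a' l 0)
    (b := fun i => if i = l then a' l else 0)
    (by
      intro i
      by_cases h : i = l
      · subst h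
        rw [Function.update_self, Function.update_self]
        exact PH.one
      · rw [Function.update_of_ne h, Function.update_of_ne h]
        exact hx i)
    (by
      intro i
      by_cases h : i = l
      · subst h
        rw [Pi.mulSingle_eq_same, if_pos rfl]
        exact hx i
      · rw [Pi.mulSingle_eq_of_ne h, if_neg h]
        exact PH.one)
  refine ⟨s⁻¹, fun c => ?_⟩
  rw [h1, ep_single] at h2
  have h3 : extProd W X n x = s⁻¹ • (extProd W X n (Function.update x l 1) *
      W.map (prj X n l) (x l)) := by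
    rw [h2, smul_smul, inv_mul_cancel₀ hs, one_smul]
  rw [W.tr_push, h3, mul_smul_comm, map_smul, smul_eq_mul, mul_assoc]

/-- The degree of the transferred class. -/
lemma transfer_mem {n p : ℕ} {c : W.H (pw X n)} (hc : c ∈ W.gr (pw X n) (2 * p))
    {x : Fin (n + 1) → W.H X} {a : Fin (n + 1) → ℕ} (hx : ∀ i, x i ∈ W.gr X (a i))
    (l : Fin (n + 1)) : W.push (prj X n l) (c * extProd W X n x) ∈
      grZ (W.gr X) (((2 * p + ∑ i, a i : ℕ) : ℤ) + 2 * ((X.dim : ℤ) - (pw X n).dim)) :=
  W.push_mem (prj X n l) (W.mul_mem hc (ep_mem (W := W) hx))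

/-- Transfers of classes of smaller degree by algebraic classes. -/
lemma lower_of_alg {n p j : ℕ} {c : W.H (pw X n)} (hc : c ∈ algSpan W (pw X n))
    (hp : c ∈ W.gr (pw X n) (2 * p)) (hd : (pw X n).dim ≤ p + X.dim)
    {x : Fin (n + 1) → W.H X} {a : Fin (n + 1) → ℕ} (hx : ∀ i, x i ∈ W.gr X (a i))
    (ha : ∀ i, a i < j) (hj : ((2 * p + ∑ i, a i : ℕ) : ℤ) + 2 * ((X.dim : ℤ) - (pw X n).dim) = j)
    (l : Fin (n + 1)) : W.push (prj X n l) (c * extProd W X n x) ∈ lowerPart W X P j := by
  have h1 := spanCycles_of_algSpan hc hp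
  rw [spanCycles] at h1
  clear hc hp
  induction h1 using Submodule.span_induction with
  | zero => rw [zero_mul, map_zero]; exact Submodule.zero_mem _
  | add c c' _ _ h h' => rw [add_mul, map_add]; exact Submodule.add_mem _ h h'
  | smul r c _ h => rw [smul_mul_assoc, map_smul]; exact Submodule.smul_mem _ _ h
  | mem c hc =>
    obtain ⟨q, hq, z, hz, rfl⟩ := hc
    obtain rfl : q = p := by exact_mod_cast hq
    refine Submodule.subset_span ⟨?_, Or.inl ⟨n, q, z, hd, hz, x, fun i => ⟨a i, ha i, hx i⟩, l,
      rfl⟩⟩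
    have h2 := transfer_mem (W := W) (W.cl_mem hz) hx l
    rw [hj, grZ_natCast] at h2
    exact h2

/-- Decomposable classes. -/
lemma lower_of_mul {a b : ℕ} (ha : 0 < a) (hb : 0 < b) {y z : W.H X} (hy : y ∈ W.gr X a)
    (hz : z ∈ W.gr X b) : y * z ∈ lowerPart W X P (a + b) := by
  have hd : (pw X 1).dim ≤ X.dim + X.dim := le_of_eq rfl
  have h2 := lower_of_alg (P := P) (n := 1) (p := X.dim) (j := a + b) (c := W.push (diag X) 1)
    (algSpan_push (W := W) (diag X) one_mem_algSpan) diag_mem hd (x := ![y, z]) (a := ![a, b])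
    (by
      intro i
      fin_cases i
      · exact hy
      · exact hz)
    (by
      intro i
      fin_cases i
      · change a < a + b
        omega
      · change b < a + b
        omega)
    (by
      have h3 : (pw X 1).dim = X.dim + X.dim := rfl
      rw [h3, Fin.sum_univ_two]
      change ((2 * X.dim + (a + b) : ℕ) : ℤ) + 2 * ((X.dim : ℤ) - ((X.dim + X.dim : ℕ) : ℤ)) =
        ((a + b : ℕ) : ℤ)
      push_cast
      ring) 1
  rw [ep_two, prj1_one] at h2
  have h3 : W.push (snd X X) (W.push (diag X) 1 * (W.map (fst X X) y * W.map (snd X X) z)) =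
      y * z := by
    rw [← W.push_mul, ← W.push_comp, map_mul (W.map (diag X)), ← W.map_comp, ← W.map_comp]
    have e1 : diag X ≫ snd X X = 𝟙 X := Obj.lift_snd _ _
    have e2 : diag X ≫ fst X X = 𝟙 X := Obj.lift_fst _ _
    rw [e1, e2, W.push_id, W.map_id, W.map_id, one_mul]
  exact h3 ▸ h2

section Kill

variable {n' : ℕ} {u' : W.H X} (hd' : n' ≤ 2 * X.dim) (hu' : u' ∈ W.gr X (2 * X.dim - n'))
  (hk' : ∀ y ∈ lowerPart W X P n', W.tr X (u' * y) = 0)

include hd' hu' hk'

/-- A class of small dimension. -/
lemma kill_dim {n j : ℕ} {c : W.H (pw X n)} (hc : c ∈ algSpan W (pw X n))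
    (hj : c ∈ W.gr (pw X n) (2 * j)) (hd : (pw X n).dim < j + X.dim)
    {x : Fin (n + 1) → W.H X} {a : Fin (n + 1) → ℕ} (hx : ∀ i, x i ∈ W.gr X (a i))
    (l : Fin (n + 1)) : W.tr (pw X n) (c * extProd W X n (Function.update x l u')) = 0 := by
  have hxu : ∀ i, Function.update x l u' i ∈
      PH W X (Function.update a l (2 * X.dim - n') i) := by
    intro i
    by_cases hi : i = l
    · subst hi
      rw [Function.update_self, Function.update_self]
      exact PH.of hu'
    · rw [Function.update_of_ne hi, Function.update_of_ne hi]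
      exact PH.of (hx i)
  obtain ⟨s, hs⟩ := tr_factor' hxu l
  rw [hs, Function.update_self, Function.update_idem]
  have hx1 : ∀ i, Function.update x l 1 i ∈ W.gr X (Function.update a l 0 i) := by
    intro i
    by_cases hi : i = l
    · subst hi
      rw [Function.update_self, Function.update_self]
      exact W.one_mem X
    · rw [Function.update_of_ne hi, Function.update_of_ne hi]
      exact hx i
  have hv := transfer_mem (W := W) hj hx1 l
  set v := W.push (prj X n l) (c * extProd W X n (Function.update x l 1)) with hvdef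
  suffices h : W.tr X (u' * v) = 0 by rw [(tr_comm_zero hu' v).2 h, mul_zero]
  by_cases hdeg : ((2 * j + ∑ i, Function.update a l 0 i : ℕ) : ℤ) +
      2 * ((X.dim : ℤ) - (pw X n).dim) = n'
  · apply hk'
    refine lower_of_alg hc hj hd.le hx1 (fun i => ?_) hdeg l
    have h1 : Function.update a l 0 i ≤ ∑ i, Function.update a l 0 i :=
      Finset.single_le_sum (f := Function.update a l 0) (fun _ _ => Nat.zero_le _)
        (Finset.mem_univ i)
    omega
  · by_cases h0 : 0 ≤ ((2 * j + ∑ i, Function.update a l 0 i : ℕ) : ℤ) +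
        2 * ((X.dim : ℤ) - (pw X n).dim)
    · obtain ⟨m, hm⟩ := Int.eq_ofNat_of_zero_le h0
      rw [hm] at hv hdeg
      have hv' : v ∈ W.gr X m := by
        rw [← grZ_natCast (gr := W.gr X) m]
        exact hv
      exact W.tr_eq_zero (W.mul_mem hu' hv') (by
        have : m ≠ n' := fun h => hdeg (by rw [h])
        omega)
    · rw [grZ_of_neg (by omega)] at hv
      rw [(Submodule.mem_bot _).1 hv, mul_zero, map_zero]

/-- A class of small codimension. -/
lemma kill_codim {n j : ℕ} {c : W.H (pw X n)} {D : X.Cycles} (hD : X.IsCyc 1 D)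
    (hHL : HardLefschetz W X D) (hnd : n' < X.dim) (hjn : j < n')
    (hc : c ∈ algSpan W (pw X n)) (hj : c ∈ W.gr (pw X n) (2 * j))
    {x : Fin (n + 1) → W.H X} {a : Fin (n + 1) → ℕ} (hx : ∀ i, x i ∈ W.gr X (a i))
    (l : Fin (n + 1)) : W.tr (pw X n) (c * extProd W X n (Function.update x l u')) = 0 := by
  classical
  set x' := Function.update x l u' with hx'
  set a' := Function.update a l (2 * X.dim - n') with ha'
  have hxa : ∀ i, x' i ∈ W.gr X (a' i) := by
    intro i
    by_cases hi : i = l
    · subst hi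
      rw [hx', ha', Function.update_self, Function.update_self]
      exact hu'
    · rw [hx', ha', Function.update_of_ne hi, Function.update_of_ne hi]
      exact hx i
  have hgr := ep_mem (W := W) hxa
  by_contra hne
  have hsum : 2 * j + ∑ i, a' i = 2 * (pw X n).dim := by
    by_contra h
    exact hne (W.tr_eq_zero (W.mul_mem hj hgr) h)
  rw [dim_pw] at hsum
  have hx0 : ∀ i, x' i ≠ 0 := by
    intro i h
    apply hne
    rw [← epM_apply, (epM W X n).map_coord_zero i h, mul_zero, map_zero]
  have ha : ∀ i, a' i ≤ 2 * X.dim := by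
    intro i
    by_contra h
    have h1 := hxa i
    rw [W.gr_eq_bot X _ (by omega)] at h1
    exact hx0 i ((Submodule.mem_bot _).1 h1)
  set c' : Fin (n + 1) → ℕ := fun i => 2 * X.dim - a' i with hc'
  have hcl : c' l = n' := by
    simp only [hc', ha', Function.update_self]
    omega
  have hcsum : ∑ i, c' i = 2 * j := by
    have h1 : ∑ i, c' i + ∑ i, a' i = (n + 1) * (2 * X.dim) := by
      rw [← Finset.sum_add_distrib]
      have h2 : ∀ i, c' i + a' i = 2 * X.dim := fun i => by
        have := ha i
        simp only [hc']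
        omega
      rw [Finset.sum_congr rfl fun i _ => h2 i, Finset.sum_const, Finset.card_univ,
        Fintype.card_fin, smul_eq_mul]
    have h3 : (n + 1) * (2 * X.dim) = 2 * ((n + 1) * X.dim) := by ring
    omega
  have hsum2 : c' l + ∑ i ∈ Finset.univ.erase l, c' i = ∑ i, c' i :=
    Finset.add_sum_erase _ _ (Finset.mem_univ l)
  have hle : ∀ i, i ≠ l → c' i ≤ ∑ i ∈ Finset.univ.erase l, c' i := by
    intro i hi
    exact Finset.single_le_sum (f := c') (fun _ _ => Nat.zero_le _)
      (Finset.mem_erase.2 ⟨hi, Finset.mem_univ i⟩)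
  -- the other factors are in the image of the Lefschetz operator
  have hz : ∀ i, ∃ z : W.H X, ∃ p q : ℕ, z ∈ W.gr X q ∧ W.cl X D ^ p * z = x' i ∧
      (i ≠ l → p = X.dim - c' i ∧ q = c' i) ∧ (i = l → p = 0 ∧ z = u') := by
    intro i
    by_cases hi : i = l
    · refine ⟨u', 0, 2 * X.dim - n', hu', ?_, fun h => absurd hi h, fun _ => ⟨rfl, rfl⟩⟩
      subst hi
      rw [pow_zero, one_mul, hx', Function.update_self]
    · have h1 := hle i hi
      have h2 := ha i
      have h3 : 2 * X.dim - c' i = a' i := by
        simp only [hc']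
        omega
      obtain ⟨z, hz1, hz2⟩ := (hHL (c' i) (by omega)).2 (x' i) (by rw [h3]; exact hxa i)
      rw [LinearMap.pow_mulLeft, LinearMap.mulLeft_apply] at hz2
      exact ⟨z, X.dim - c' i, c' i, hz1, hz2, fun _ => ⟨rfl, rfl⟩, fun h => absurd h hi⟩
  choose z p q hz1 hz2 hz3 hz4 using hz
  set y : Fin (n + 1) → W.H X := fun i => W.cl X D ^ p i with hy
  have hygr : ∀ i, y i ∈ W.gr X (2 * p i) := fun i => pow_gr hD _
  obtain ⟨s, hs, h1⟩ := ep_mul (W := W) (fun i => PH.of (hygr i)) fun i => PH.of (hz1 i)
  have hyz : y * z = x' := funext fun i => hz2 i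
  rw [hyz] at h1
  have hyalg : ∀ m : ℕ, W.cl X D ^ m ∈ algSpan W X := by
    intro m
    induction m with
    | zero => rw [pow_zero]; exact one_mem_algSpan
    | succ m ih =>
      rw [pow_succ]
      exact algSpan_mul ih (cl_mem_algSpan hD)
  have halg : c * extProd W X n y ∈ algSpan W (pw X n) := by
    refine algSpan_mul hc ?_
    have h2 : ∀ (N : ℕ) (t : Fin N → W.H (pw X n)), (∀ i, t i ∈ algSpan W (pw X n)) →
        (List.ofFn t).prod ∈ algSpan W (pw X n) := by
      intro N
      induction N with
      | zero => intro t _; rw [List.ofFn_zero, List.prod_nil]; exact one_mem_algSpan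
      | succ N ih =>
        intro t ht
        rw [List.ofFn_succ, List.prod_cons]
        exact algSpan_mul (ht 0) (ih _ fun i => ht i.succ)
    exact h2 _ _ fun i => algSpan_map _ (hyalg _)
  have hgr2 : c * extProd W X n y ∈ W.gr (pw X n) (2 * (j + ∑ i, p i)) := by
    have h2 := W.mul_mem hj (ep_mem (W := W) hygr)
    rwa [← Finset.mul_sum, ← mul_add] at h2
  have hdim : (pw X n).dim < j + ∑ i, p i + X.dim := by
    rw [dim_pw]
    have h2 : ∑ i, p i + ∑ i, c' i = n * X.dim + c' l := by
      have h3 : p l + ∑ i ∈ Finset.univ.erase l, p i = ∑ i, p i :=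
        Finset.add_sum_erase _ _ (Finset.mem_univ l)
      have h4 : ∑ i ∈ Finset.univ.erase l, p i + ∑ i ∈ Finset.univ.erase l, c' i =
          n * X.dim := by
        rw [← Finset.sum_add_distrib]
        have h5 : ∀ i ∈ Finset.univ.erase l, p i + c' i = X.dim := by
          intro i hi
          have hi' := Finset.ne_of_mem_erase hi
          have h6 := (hz3 i hi').1
          have h7 := hle i hi'
          omega
        rw [Finset.sum_congr rfl h5, Finset.sum_const, Finset.card_erase_of_mem
          (Finset.mem_univ l), Finset.card_univ, Fintype.card_fin, smul_eq_mul,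
          Nat.add_sub_cancel]
      have h5 := (hz4 l rfl).1
      omega
    have h6 : (n + 1) * X.dim = n * X.dim + X.dim := by ring
    omega
  have hzu : Function.update z l u' = z := by
    funext i
    by_cases hi : i = l
    · subst hi
      rw [Function.update_self, (hz4 i rfl).2]
    · rw [Function.update_of_ne hi]
  have h3 := kill_dim hd' hu' hk' halg hgr2 hdim hz1 l
  rw [hzu, mul_assoc, h1, mul_smul_comm, map_smul, smul_eq_mul] at h3
  exact hne ((mul_eq_zero.1 h3).resolve_left hs)

/-- A class which comes from varieties with the property `P`. -/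
lemma kill_supported {n : ℕ} {c : W.H (pw X n)} (hc : IsSupported W P n c)
    {x : Fin (n + 1) → W.H X} {a : Fin (n + 1) → ℕ} (hx : ∀ i, x i ∈ W.gr X (a i))
    (l : Fin (n + 1)) : W.tr (pw X n) (c * extProd W X n (Function.update x l u')) = 0 := by
  obtain ⟨Z, f, hf, w, rfl⟩ := hc
  obtain ⟨Y, hY, α, β, hαβ⟩ := hf l
  have hxu : ∀ i, Function.update x l u' i ∈
      PH W X (Function.update a l (2 * X.dim - n') i) := by
    intro i
    by_cases hi : i = l
    · subst hi
      rw [Function.update_self, Function.update_self]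
      exact PH.of hu'
    · rw [Function.update_of_ne hi, Function.update_of_ne hi]
      exact PH.of (hx i)
  obtain ⟨s, hs⟩ := tr_factor' hxu l
  rw [hs, Function.update_self, Function.update_idem, ← W.push_mul f, ← W.push_comp f, ← hαβ,
    W.push_comp]
  suffices h : ∀ y : W.H Y, W.tr X (u' * W.push β y) = 0 by
    rw [(tr_comm_zero hu' _).2 (h _), mul_zero]
  intro y
  refine hom_ind (p := fun y => W.tr X (u' * W.push β y) = 0) ?_ ?_ ?_ y
  · intro i y hy
    have h1 := W.push_mem β hy
    by_cases h0 : 0 ≤ (i : ℤ) + 2 * ((X.dim : ℤ) - Y.dim)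
    · obtain ⟨m, hm⟩ := Int.eq_ofNat_of_zero_le h0
      rw [hm] at h1
      have h2 : W.push β y ∈ W.gr X m := by
        rw [← grZ_natCast (gr := W.gr X) m]
        exact h1
      by_cases hmn : m = n'
      · subst hmn
        exact hk' _ (Submodule.subset_span ⟨h2, Or.inr ⟨Y, β, hY, y, rfl⟩⟩)
      · exact W.tr_eq_zero (W.mul_mem hu' h2) (by omega)
    · rw [grZ_of_neg (by omega)] at h1
      rw [(Submodule.mem_bot _).1 h1, mul_zero, map_zero]
  · rw [map_zero, mul_zero, map_zero]
  · intro y y' hy hy'
    rw [map_add, mul_add, map_add, hy, hy', add_zero]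

end Kill

end Pool.Agent.Q200.LD
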