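import Pool.Agent.Q200.LD.Low

/-!
# The Künneth projectors and the small classes
-/

open CategoryTheory AlgebraicGeometry TensorProduct

set_option linter.unusedSectionVars false

universe u v

namespace Pool.Agent.Q200.LD

open Module
open Pool.Agent.H914 Pool.Agent.H914.VarClass Pool.Agent.H914.VarClass.Obj
  Pool.Agent.H914.WeilCohomology
open Pool.Agent.Y133.Half Pool.Agent.H281R3.HT Pool.Agent.W536.RR
open Pool.Agent.Q60.NP (Family ClosedMul ClosedPull ClosedPush IsCoordinate MapsInto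
  mem_PH_of_par)

variable {k : Type u} [Field k] {𝒱 : VarClass k} {ops : CycleOps 𝒱}
  {W : WeilCohomology.{u, v} ops} {X Y Z : 𝒱.Obj} {P : 𝒱.Obj → Prop}

lemma lowerPart_le (j : ℕ) : lowerPart W X P j ≤ W.gr X j := by
  rw [lowerPart, Submodule.span_le]
  exact fun y hy => hy.1

/-- A class which detects elements of `H^n` modulo a subspace. -/
lemma exists_killer {n : ℕ} (hd : n ≤ 2 * X.dim) {L : Submodule W.K (W.H X)} (hL : L ≤ W.gr X n)
    {x : W.H X} (hx : x ∈ W.gr X n) (hxL : x ∉ L) :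
    ∃ u ∈ W.gr X (2 * X.dim - n), (∀ y ∈ L, W.tr X (u * y) = 0) ∧ W.tr X (u * x) ≠ 0 := by
  obtain ⟨φ, hφ, hφL⟩ := Submodule.exists_le_ker_of_notMem hxL
  obtain ⟨u, rfl⟩ := pd_surjective (W := W) (X := X) φ
  refine ⟨proj (W.isInternal X) (2 * X.dim - n) u, H914.proj_mem _ _ _, fun y hy => ?_, ?_⟩
  · rw [tr_proj (hL hy) (by omega)]
    exact hφL hy
  · rw [tr_proj hx (by omega)]
    exact hφ

lemma mem_small {g n : ℕ} {S : Set ℕ} {V : Family W X} (hV : IsSmallFamily P g S V)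
    {c : W.H (pw X n)} (hc : c ∈ smallClasses W X P g S n) : c ∈ V n :=
  iInf_le (fun V : {V : Family W X // IsSmallFamily P g S V} => V.1 n) ⟨V, hV⟩ hc

section Core

variable {n n' : ℕ} {u u' : W.H X} {D : X.Cycles}

/-- The classes killed by the superderivations form a small family. -/
theorem small_ker (hD : X.IsCyc 1 D) (hHL : HardLefschetz W X D) (hnd : n < X.dim)
    (hnd' : n' < X.dim) (hu : u ∈ W.gr X (2 * X.dim - n))
    (hu' : u' ∈ W.gr X (2 * X.dim - n')) (hk : ∀ y ∈ lowerPart W X P n, W.tr X (u * y) = 0)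
    (hk' : ∀ y ∈ lowerPart W X P n', W.tr X (u' * y) = 0) {g : ℕ} (hg : g ≤ n) (hg' : g ≤ n')
    {S : Set ℕ} (hS : n ∉ S ∧ n' ∉ S ∧ 2 * X.dim - n ∉ S ∧ 2 * X.dim - n' ∉ S) {ε : ℕ} {s : W.K}
    {E : ∀ n, Module.End W.K (W.H (pw X n))} (hE : PDer ε (twoDer u u' s) E) :
    IsSmallFamily (W := W) (X := X) P g S (fun n => LinearMap.ker (E n)) := by
  -- the general pattern
  have key : ∀ {m : ℕ} {c : W.H (pw X m)},
      (∀ (x : Fin (m + 1) → W.H X) (a : Fin (m + 1) → ℕ), (∀ i, x i ∈ W.gr X (a i)) → ∀ l,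
        W.tr (pw X m) (c * extProd W X m (Function.update x l u)) = 0 ∧
        W.tr (pw X m) (c * extProd W X m (Function.update x l u')) = 0) →
      c ∈ LinearMap.ker (E m) := by
    intro m c h
    rw [LinearMap.mem_ker]
    refine hE.ker_of fun x a hx l => ?_
    obtain ⟨h1, h2⟩ := h x a hx l
    rw [twoDer_apply, ← epM_apply, MultilinearMap.map_update_add, MultilinearMap.map_update_smul,
      MultilinearMap.map_update_smul, epM_apply, epM_apply, mul_add, mul_smul_comm, mul_smul_comm,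
      map_add, map_smul, map_smul, h1, h2, smul_zero, smul_zero, add_zero]
  refine ⟨?_, ?_, ?_, hE.closedMul, hE.closedPull, hE.closedPush⟩
  · rintro m j (hj | hd) z hz
    · exact key fun x a hx l =>
        ⟨kill_codim (by omega) hu hk hD hHL hnd (by omega) (cl_mem_algSpan hz) (W.cl_mem hz) hx l,
          kill_codim (by omega) hu' hk' hD hHL hnd' (by omega) (cl_mem_algSpan hz) (W.cl_mem hz)
            hx l⟩
    · exact key fun x a hx l =>
        ⟨kill_dim (by omega) hu hk (cl_mem_algSpan hz) (W.cl_mem hz) hd hx l,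
          kill_dim (by omega) hu' hk' (cl_mem_algSpan hz) (W.cl_mem hz) hd hx l⟩
  · intro m c hc
    exact key fun x a hx l => ⟨kill_supported (by omega) hu hk hc hx l,
      kill_supported (by omega) hu' hk' hc hx l⟩
  · intro i hi c hc
    rw [LinearMap.mem_ker]
    refine hE.ker_of fun x a hx l => ?_
    have h1 : ∀ y : Fin 2 → W.H X, W.tr (pw X 1) (c * extProd W X 1 y) =
        W.tr X (corr1 W X c (y 0) * y 1) := by
      intro y
      rw [ep_two]
      exact tr_corr c (y 0) (y 1)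
    have hcu : corr1 W X c u = 0 := by
      have hne : 2 * X.dim - n ≠ i := fun h => hS.2.2.1 (by rw [h]; exact hi)
      rw [hc _ u hu, if_neg hne]
    have hcu' : corr1 W X c u' = 0 := by
      have hne : 2 * X.dim - n' ≠ i := fun h => hS.2.2.2 (by rw [h]; exact hi)
      rw [hc _ u' hu', if_neg hne]
    rw [h1]
    have hl : l = 0 ∨ l = 1 := Fin.exists_fin_two.1 ⟨l, rfl⟩
    rcases hl with rfl | rfl
    · rw [Function.update_self, twoDer_apply, map_add, map_smul, map_smul, hcu, hcu', smul_zero,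
        smul_zero, add_zero, zero_mul, map_zero]
    · rw [Function.update_self, Function.update_of_ne (by decide), hc (a 0) (x 0) (hx 0)]
      by_cases ha : a 0 = i
      · rw [if_pos ha, twoDer_apply, mul_add, mul_smul_comm, mul_smul_comm, map_add, map_smul,
          map_smul]
        have e1 : W.tr X (x 0 * u') = 0 := by
          refine W.tr_eq_zero (W.mul_mem (hx 0) hu') ?_
          have : a 0 ≠ n' := fun h => hS.2.1 (by rw [← h, ha]; exact hi)
          omega
        have e2 : W.tr X (x 0 * u) = 0 := by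
          refine W.tr_eq_zero (W.mul_mem (hx 0) hu) ?_
          have : a 0 ≠ n := fun h => hS.1 (by rw [← h, ha]; exact hi)
          omega
        rw [e1, e2, smul_zero, smul_zero, add_zero]
      · rw [if_neg ha, zero_mul, map_zero]

/-- **The operators given by scalars.** -/
theorem core (hD : X.IsCyc 1 D) (hHL : HardLefschetz W X D) (hn : 0 < n) (hn' : 0 < n')
    (hnd : n < X.dim) (hnd' : n' < X.dim) (hu : u ∈ W.gr X (2 * X.dim - n))
    (hu' : u' ∈ W.gr X (2 * X.dim - n')) (hk : ∀ y ∈ lowerPart W X P n, W.tr X (u * y) = 0)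
    (hk' : ∀ y ∈ lowerPart W X P n', W.tr X (u' * y) = 0) {g : ℕ} (hg : g ≤ n) (hg' : g ≤ n')
    {S : Set ℕ} (hS : n ∉ S ∧ n' ∉ S ∧ 2 * X.dim - n ∉ S ∧ 2 * X.dim - n' ∉ S)
    {x y : W.H X} (hx : x ∈ W.gr X n) (hy : y ∈ W.gr X n')
    (hxy : W.tr X (u * x) * W.tr X (u' * y) +
      sgnD W n n' * W.tr X (u' * x) * W.tr X (u * y) ≠ 0)
    {c : W.H (pw X 1)} (hc : c ∈ smallClasses W X P g S 1) {r : ℕ → W.K}
    (hr : ActsByScalars (W.gr X) r (corr1 W X c)) : r n = r (2 * X.dim - n') := by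
  have hdec : ∀ a b, 0 < a → 0 < b → ∀ y ∈ W.gr X a, ∀ z ∈ W.gr X b,
      W.tr X (u * (y * z)) = 0 := by
    intro a b ha hb y₁ hy₁ z₁ hz₁
    by_cases h : a + b = n
    · refine hk _ ?_
      rw [← h]
      exact lower_of_mul ha hb hy₁ hz₁
    · exact tr_mul_ne hu (W.mul_mem hy₁ hz₁) h (by omega)
  have hdec' : ∀ a b, 0 < a → 0 < b → ∀ y ∈ W.gr X a, ∀ z ∈ W.gr X b,
      W.tr X (u' * (y * z)) = 0 := by
    intro a b ha hb y₁ hy₁ z₁ hz₁
    by_cases h : a + b = n'
    · refine hk' _ ?_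
      rw [← h]
      exact lower_of_mul ha hb hy₁ hz₁
    · exact tr_mul_ne hu' (W.mul_mem hy₁ hz₁) h (by omega)
  have hδ := twoDer_sder hn hn' (by omega) (by omega) hu hu' hdec hdec'
  obtain ⟨E, hE⟩ := exists_pder' hδ
  have hsm := small_ker (P := P) hD hHL hnd hnd' hu hu' hk hk' hg hg' hS hE
  have hc0 : E 1 c = 0 := LinearMap.mem_ker.1 (mem_small hsm hc)
  set δ := twoDer u u' (sgnD W n n') with hδd
  -- the derivative of the external product of `x` and `y`
  have h1 : E 1 (W.map (prj X 1 0) x * W.map (prj X 1 1) y) =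
      W.map (prj X 1 0) (δ x) * W.map (prj X 1 1) y +
        (-1 : W.K) ^ ((n + n') * n) • (W.map (prj X 1 0) x * W.map (prj X 1 1) (δ y)) := by
    rw [(hE.sder 1).mul' (PH.map _ (PH.of hx)), hE.gen, hE.gen]
  have hδx : δ x ∈ PH W X (n + (n + n')) := hδ.ph (PH.of hx)
  have hδy : δ y ∈ PH W X (n' + (n + n')) := hδ.ph (PH.of hy)
  have h2 := (hE.sder 1).tr_mul c (W.map (prj X 1 0) x * W.map (prj X 1 1) y)
  rw [hc0, zero_mul, map_zero, h1, mul_add, mul_smul_comm, map_add, map_smul,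
    tr_pa_mul (n + n') (PH.mul (PH.map _ hδx) (PH.map _ (PH.of hy))),
    tr_pa_mul (n + n') (PH.mul (PH.map _ (PH.of hx)) (PH.map _ hδy))] at h2
  have e1 : (-1 : W.K) ^ ((n + n') * (n + (n + n') + n')) = 1 := by
    have : (n + n') * (n + (n + n') + n') = 2 * ((n + n') * (n + n')) := by ring
    rw [this, (even_two_mul _).neg_one_pow]
  have e2 : (-1 : W.K) ^ ((n + n') * (n + (n' + (n + n')))) = 1 := by
    have : (n + n') * (n + (n' + (n + n'))) = 2 * ((n + n') * (n + n')) := by ring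
    rw [this, (even_two_mul _).neg_one_pow]
  rw [e1, e2, one_mul, one_mul] at h2
  have e3 : ∀ a b : W.H X, W.tr (pw X 1) (c * (W.map (prj X 1 0) a * W.map (prj X 1 1) b)) =
      W.tr X (corr1 W X c a * b) := by
    intro a b
    rw [prj1_zero, prj1_one]
    exact tr_corr c a b
  rw [e3, e3, hr n x hx] at h2
  have e4 : corr1 W X c (δ x) = r (2 * X.dim - n') • δ x := by
    rw [hδd, twoDer_apply, map_add, map_smul, map_smul, hr _ u' hu', smul_add]
    by_cases hnn : n = n'
    · subst hnn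
      rw [hr _ u hu]
      module
    · have : W.tr X (u' * x) = 0 := tr_mul_ne hu' hx hnn (by omega)
      rw [this, mul_zero, zero_smul, zero_smul]
      module
  rw [e4, smul_mul_assoc, smul_mul_assoc, map_smul, map_smul] at h2
  have h3 := hδ.tr_mul x y
  rw [pa_pow (PH.of hx), smul_mul_assoc, map_smul] at h3
  simp only [smul_eq_mul] at h2 h3
  have h4 : W.tr X (δ x * y) = W.tr X (u * x) * W.tr X (u' * y) +
      sgnD W n n' * W.tr X (u' * x) * W.tr X (u * y) := by
    rw [hδd, twoDer_apply, add_mul, smul_mul_assoc, smul_mul_assoc, map_add, map_smul, map_smul]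
    rfl
  have h5 : (r n - r (2 * X.dim - n')) * W.tr X (δ x * y) = 0 := by
    linear_combination r n * h3 - h2
  rw [h4] at h5
  exact sub_eq_zero.1 ((mul_eq_zero.1 h5).resolve_right hxy)

end Core

/-- **Two different degrees.** -/
theorem scalars_ne {D : X.Cycles} (hD : X.IsCyc 1 D) (hHL : HardLefschetz W X D) {n n' : ℕ}
    (hn : 0 < n) (hn' : 0 < n') (hnd : n < X.dim) (hnd' : n' < X.dim) (hnn : n ≠ n')
    (h : ¬ W.gr X n ≤ lowerPart W X P n) (h' : ¬ W.gr X n' ≤ lowerPart W X P n') {g : ℕ}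
    (hg : g ≤ n) (hg' : g ≤ n') {S : Set ℕ}
    (hS : n ∉ S ∧ n' ∉ S ∧ 2 * X.dim - n ∉ S ∧ 2 * X.dim - n' ∉ S)
    {c : W.H (pw X 1)} (hc : c ∈ smallClasses W X P g S 1) {r : ℕ → W.K}
    (hr : ActsByScalars (W.gr X) r (corr1 W X c)) : r n = r (2 * X.dim - n') := by
  obtain ⟨x, hx, hxL⟩ := SetLike.not_le_iff_exists.1 h
  obtain ⟨y, hy, hyL⟩ := SetLike.not_le_iff_exists.1 h'
  obtain ⟨u, hu, hk, hux⟩ := exists_killer (by omega) (lowerPart_le n) hx hxL
  obtain ⟨u', hu', hk', huy⟩ := exists_killer (by omega) (lowerPart_le n') hy hyL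
  refine core hD hHL hn hn' hnd hnd' hu hu' hk hk' hg hg' hS hx hy ?_ hc hr
  rw [tr_mul_ne hu' hx hnn (by omega), mul_zero, zero_mul, add_zero]
  exact mul_ne_zero hux huy

/-- **One odd degree.** -/
theorem scalars_odd {D : X.Cycles} (hD : X.IsCyc 1 D) (hHL : HardLefschetz W X D) {n : ℕ}
    (hnd : n < X.dim) (hodd : n % 2 = 1) (h : ¬ W.gr X n ≤ lowerPart W X P n) {g : ℕ}
    (hg : g ≤ n) {S : Set ℕ} (hS : n ∉ S ∧ 2 * X.dim - n ∉ S)
    {c : W.H (pw X 1)} (hc : c ∈ smallClasses W X P g S 1) {r : ℕ → W.K}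
    (hr : ActsByScalars (W.gr X) r (corr1 W X c)) : r n = r (2 * X.dim - n) := by
  obtain ⟨x, hx, hxL⟩ := SetLike.not_le_iff_exists.1 h
  obtain ⟨u, hu, hk, hux⟩ := exists_killer (by omega) (lowerPart_le n) hx hxL
  refine core hD hHL (by omega) (by omega) hnd hnd hu hu hk hk hg hg ⟨hS.1, hS.1, hS.2, hS.2⟩ hx
    hx ?_ hc hr
  have h1 : sgnD W n n = 1 := by
    rw [sgnD, (Nat.odd_iff.2 hodd |>.mul (Nat.odd_iff.2 hodd)).neg_one_pow, neg_neg]
  rw [h1, one_mul, ← two_mul]
  exact mul_ne_zero two_ne_zero (mul_ne_zero hux hux)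

/-- **One even degree.** -/
theorem scalars_even {D : X.Cycles} (hD : X.IsCyc 1 D) (hHL : HardLefschetz W X D) {n : ℕ}
    (hn : 0 < n) (hnd : n < X.dim) {x y : W.H X} (hx : x ∈ W.gr X n)
    (hy : y ∈ W.gr X n) (h : IndependentModulo (lowerPart W X P n) x y) {g : ℕ} (hg : g ≤ n)
    {S : Set ℕ} (hS : n ∉ S ∧ 2 * X.dim - n ∉ S)
    {c : W.H (pw X 1)} (hc : c ∈ smallClasses W X P g S 1) {r : ℕ → W.K}
    (hr : ActsByScalars (W.gr X) r (corr1 W X c)) : r n = r (2 * X.dim - n) := by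
  have hxL : x ∉ lowerPart W X P n := by
    intro hmem
    have h1 := (h 1 0 (by rw [one_smul, zero_smul, add_zero]; exact hmem)).1
    exact one_ne_zero h1
  have hyL : y ∉ lowerPart W X P n ⊔ Submodule.span W.K {x} := by
    intro hmem
    obtain ⟨z, hz, w, hw, hzw⟩ := Submodule.mem_sup.1 hmem
    obtain ⟨a, rfl⟩ := Submodule.mem_span_singleton.1 hw
    have h1 := (h (-a) 1 (by
      rw [one_smul, neg_smul, ← hzw]
      have : -(a • x) + (z + a • x) = z := by abel
      rw [this]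
      exact hz)).2
    exact one_ne_zero h1
  obtain ⟨u, hu, hk, hux⟩ := exists_killer (by omega) (lowerPart_le n) hx hxL
  obtain ⟨u', hu', hk', huy⟩ := exists_killer (by omega)
    (sup_le (lowerPart_le n) (by rw [Submodule.span_singleton_le_iff_mem]; exact hx)) hy hyL
  refine core hD hHL hn hn hnd hnd hu hu' hk
    (fun z hz => hk' z (Submodule.mem_sup_left hz)) hg hg ⟨hS.1, hS.1, hS.2, hS.2⟩ hx hy ?_ hc hr
  rw [hk' x (Submodule.mem_sup_right (Submodule.mem_span_singleton_self x)), mul_zero, zero_mul,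
    add_zero]
  exact mul_ne_zero hux huy

/-- The lower part if the cohomology of smaller degrees is spanned by algebraic classes. -/
theorem lowerPart_alg {n : ℕ} (h : ∀ j < n, SpannedByCycles W X j) :
    lowerPart W X (fun _ => False) n ≤ algSpan W X := by
  rw [lowerPart, Submodule.span_le]
  rintro y ⟨_, ⟨m, p, z, _, hz, x, hx, l, rfl⟩ | ⟨Y, f, hY, _⟩⟩
  · refine algSpan_push _ (algSpan_mul (cl_mem_algSpan hz) ?_)
    have h2 : ∀ (N : ℕ) (t : Fin N → W.H (pw X m)), (∀ i, t i ∈ algSpan W (pw X m)) →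
        (List.ofFn t).prod ∈ algSpan W (pw X m) := by
      intro N
      induction N with
      | zero => intro t _; rw [List.ofFn_zero, List.prod_nil]; exact one_mem_algSpan
      | succ N ih =>
        intro t ht
        rw [List.ofFn_succ, List.prod_cons]
        exact algSpan_mul (ht 0) (ih _ fun i => ht i.succ)
    refine h2 _ _ fun l => algSpan_map _ ?_
    obtain ⟨a, ha, hxa⟩ := hx l
    exact h a ha hxa
  · exact absurd hY id

/-- There are no algebraic classes of odd degree. -/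
lemma algSpan_odd {n : ℕ} (hn : n % 2 = 1) {x : W.H X} (hx : x ∈ W.gr X n)
    (hxa : x ∈ algSpan W X) : x = 0 := by
  have h1 : proj (W.isInternal X) n x = 0 := by
    refine algSpan_induction (p := fun c => proj (W.isInternal X) n c = 0) ?_ ?_ ?_ ?_ hxa
    · rw [map_zero]
    · intro a b ha hb
      rw [map_add, ha, hb, add_zero]
    · intro r a ha
      rw [map_smul, ha, smul_zero]
    · intro j z hz
      exact H914.proj_ne _ (W.cl_mem hz) (by omega)
  rwa [H914.proj_same _ hx] at h1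

/-- **The Künneth projectors.** -/
theorem kunneth_scalars {D : X.Cycles} (hD : X.IsCyc 1 D) (hHL : HardLefschetz W X D) {n : ℕ}
    (hn : 0 < n) (hnd : n < X.dim) {q : Submodule W.K (W.H X)} (hq : lowerPart W X P n ≤ q)
    (h : IsBigModulo (W.gr X) n q) {c : W.H (pw X 1)}
    (hc : c ∈ smallClasses W X P n {i | i ≠ n ∧ i ≠ 2 * X.dim - n} 1) :
    (∀ r, ActsByScalars (W.gr X) r (corr1 W X c) → r n = r (2 * X.dim - n)) ∧
      ¬ IsProjector (W.gr X) n (corr1 W X c) := by
  have h1 : ∀ r, ActsByScalars (W.gr X) r (corr1 W X c) → r n = r (2 * X.dim - n) := by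
    intro r hr
    rcases h with ⟨hodd, h⟩ | ⟨x, hx, y, hy, h⟩
    · refine scalars_odd hD hHL hnd hodd (fun hle => h (hle.trans hq)) le_rfl ?_ hc hr
      exact ⟨fun hS => hS.1 rfl, fun hS => hS.2 rfl⟩
    · refine scalars_even hD hHL hn hnd hx hy (fun a b hab => h a b (hq hab)) le_rfl ?_ hc hr
      exact ⟨fun hS => hS.1 rfl, fun hS => hS.2 rfl⟩
  refine ⟨h1, fun hP => ?_⟩
  have h2 := h1 (fun j => if j = n then 1 else 0) fun j x hx => by
    rw [hP j x hx]
    by_cases hj : j = n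
    · simp only [if_pos hj, one_smul]
    · simp only [if_neg hj, zero_smul]
  simp only [if_true] at h2
  rw [if_neg (by omega)] at h2
  exact one_ne_zero h2

/-- The lower part for the empty property. -/
theorem lowerPart_empty {n : ℕ} (hP : ∀ Y, ¬ P Y) (hlow : ∀ j < n, SpannedByCycles W X j) :
    lowerPart W X P n ≤ algSpan W X := by
  obtain rfl : P = fun _ => False := funext fun Y => eq_false (hP Y)
  exact lowerPart_alg hlow

/-- **The sign projectors.** -/
theorem sign_scalars {D : X.Cycles} (hD : X.IsCyc 1 D) (hHL : HardLefschetz W X D) {m n : ℕ}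
    (hm : 0 < m) (hn : 0 < n) (hmd : m < X.dim) (hnd : n < X.dim)
    (h : ¬ W.gr X m ≤ lowerPart W X P m) (h' : ¬ W.gr X n ≤ lowerPart W X P n) (hmn : m ≠ n)
    {c : W.H (pw X 1)} (hc : c ∈ smallClasses W X P (min m n)
      {i | i ≠ m ∧ i ≠ n ∧ i ≠ 2 * X.dim - m ∧ i ≠ 2 * X.dim - n} 1) {r : ℕ → W.K}
    (hr : ActsByScalars (W.gr X) r (corr1 W X c)) :
    r m = r (2 * X.dim - n) ∧ r n = r (2 * X.dim - m) := by
  constructor
  · refine scalars_ne hD hHL hm hn hmd hnd hmn h h' (min_le_left _ _) (min_le_right _ _) ?_ hc hr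
    exact ⟨fun hS => hS.1 rfl, fun hS => hS.2.1 rfl, fun hS => hS.2.2.1 rfl,
      fun hS => hS.2.2.2 rfl⟩
  · refine scalars_ne hD hHL hn hm hnd hmd hmn.symm h' h (min_le_right _ _) (min_le_left _ _) ?_
      hc hr
    exact ⟨fun hS => hS.2.1 rfl, fun hS => hS.1 rfl, fun hS => hS.2.2.2 rfl,
      fun hS => hS.2.2.1 rfl⟩

/-- The sum of the even Künneth projectors. -/
theorem sign_even {D : X.Cycles} (hD : X.IsCyc 1 D) (hHL : HardLefschetz W X D) {m n : ℕ}
    (hm : 0 < m) (hn : 0 < n) (hmd : m < X.dim) (hnd : n < X.dim)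
    (h : ¬ W.gr X m ≤ lowerPart W X P m) (h' : ¬ W.gr X n ≤ lowerPart W X P n)
    (hme : m % 2 = 0) (hno : n % 2 = 1)
    {c : W.H (pw X 1)} (hc : c ∈ smallClasses W X P (min m n)
      {i | i ≠ m ∧ i ≠ n ∧ i ≠ 2 * X.dim - m ∧ i ≠ 2 * X.dim - n} 1) :
    ¬ IsEvenProjector (W.gr X) (corr1 W X c) := by
  intro hP
  have h2 := (sign_scalars hD hHL hm hn hmd hnd h h' (by omega) hc
    (r := fun j => if j % 2 = 0 then 1 else 0) fun j x hx => by
      rw [hP j x hx]
      by_cases hj : j % 2 = 0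
      · simp only [if_pos hj, one_smul]
      · simp only [if_neg hj, zero_smul]).1
  simp only [hme, if_true] at h2
  rw [if_neg (by omega)] at h2
  exact one_ne_zero h2

end Pool.Agent.Q200.LD
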