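import Pool.Agent.Q200.LD.Fil

/-!
# The filtration of the cohomology of the powers: multiplicativity and duality
-/

open CategoryTheory AlgebraicGeometry TensorProduct

set_option linter.unusedSectionVars false

universe u v

namespace Pool.Agent.Q200.LD

open Module
open Pool.Agent.H914 Pool.Agent.H914.VarClass Pool.Agent.H914.VarClass.Obj
  Pool.Agent.H914.WeilCohomology
open Pool.Agent.Y133.Half
open Pool.Agent.Q60.NP (Family ClosedMul ClosedPull ClosedPush IsCoordinate MapsInto)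

variable {k : Type u} [Field k] {𝒱 : VarClass k} {ops : CycleOps 𝒱}
  {W : WeilCohomology.{u, v} ops} {X Y Z : 𝒱.Obj}

/-- The filtration of the cohomology of the powers. -/
noncomputable def FF (R : Submodule W.K (W.H X)) (n : ℕ) (w : ℤ) :
    Submodule W.K (W.H (pw X n)) :=
  Submodule.span W.K {c | ∃ (x : Fin (n + 1) → W.H X) (a : Fin (n + 1) → ℕ)
    (ω : Fin (n + 1) → ℤ), (∀ i, x i ∈ W.gr X (a i) ∧ x i ∈ fl R (ω i)) ∧ ∑ i, ω i ≤ w ∧
      c = extProd W X n x}

variable {R : Submodule W.K (W.H X)}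

lemma FF_gen {n : ℕ} {w : ℤ} {x : Fin (n + 1) → W.H X} {a : Fin (n + 1) → ℕ}
    {ω : Fin (n + 1) → ℤ} (h : ∀ i, x i ∈ W.gr X (a i) ∧ x i ∈ fl R (ω i))
    (hw : ∑ i, ω i ≤ w) : extProd W X n x ∈ FF R n w :=
  Submodule.subset_span ⟨x, a, ω, h, hw, rfl⟩

lemma FF_mono {n : ℕ} {w w' : ℤ} (h : w ≤ w') : FF R n w ≤ FF R n w' :=
  Submodule.span_mono fun _ ⟨x, a, ω, h1, h2, h3⟩ => ⟨x, a, ω, h1, h2.trans h, h3⟩

section Good

variable (hR : Good R)

include hR

lemma Good.FF_mul {n : ℕ} {w w' : ℤ} {c d : W.H (pw X n)} (hc : c ∈ FF R n w)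
    (hd : d ∈ FF R n w') : c * d ∈ FF R n (w + w') := by
  rw [FF] at hc
  induction hc using Submodule.span_induction with
  | zero => rw [zero_mul]; exact Submodule.zero_mem _
  | add c c' _ _ h h' => rw [add_mul]; exact Submodule.add_mem _ h h'
  | smul r c _ h => rw [smul_mul_assoc]; exact Submodule.smul_mem _ _ h
  | mem c hc =>
    obtain ⟨x, a, ω, hx, hω, rfl⟩ := hc
    rw [FF] at hd
    induction hd using Submodule.span_induction with
    | zero => rw [mul_zero]; exact Submodule.zero_mem _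
    | add c c' _ _ h h' => rw [mul_add]; exact Submodule.add_mem _ h h'
    | smul r c _ h => rw [mul_smul_comm]; exact Submodule.smul_mem _ _ h
    | mem d hd =>
      obtain ⟨y, b, ω', hy, hω', rfl⟩ := hd
      obtain ⟨s, -, hs⟩ := ep_mul (W := W) (fun i => PH.of (hx i).1) fun i => PH.of (hy i).1
      rw [hs]
      refine Submodule.smul_mem _ _ (FF_gen (a := a + b) (ω := ω + ω')
        (fun i => ⟨W.mul_mem (hx i).1 (hy i).1, hR.fl_mul (hx i).2 (hy i).2⟩) ?_)
      simp only [Pi.add_apply, Finset.sum_add_distrib]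
      omega

lemma Good.tr_FF {n : ℕ} {w : ℤ} (hw : w < 0) {c : W.H (pw X n)} (hc : c ∈ FF R n w) :
    W.tr (pw X n) c = 0 := by
  rw [FF] at hc
  induction hc using Submodule.span_induction with
  | zero => exact map_zero _
  | add c c' _ _ h h' => rw [map_add, h, h', add_zero]
  | smul r c _ h => rw [map_smul, h, smul_zero]
  | mem c hc =>
    obtain ⟨x, a, ω, hx, hω, rfl⟩ := hc
    obtain ⟨i, hi⟩ : ∃ i, ω i < 0 := by
      by_contra hcon
      push Not at hcon
      have := Finset.sum_nonneg fun i (_ : i ∈ Finset.univ) => hcon i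
      omega
    rw [tr_ep]
    refine Finset.prod_eq_zero (Finset.mem_univ i) ?_
    have h1 : x i ∈ ann R := by
      rw [← fl_neg]
      exact hR.fl_mono (by omega) (hx i).2
    have h2 := h1 1 hR.one
    rwa [mul_one] at h2

lemma Good.FF_one (n : ℕ) : (1 : W.H (pw X n)) ∈ FF R n 0 := by
  rw [← ep_one]
  refine FF_gen (a := fun _ => 0) (ω := fun _ => 0) (fun i => ⟨W.one_mem X, ?_⟩) (by simp)
  rw [fl_zero]
  exact hR.one

lemma Good.FF_single {n : ℕ} (i : Fin (n + 1)) {x : W.H X} {a : ℕ} {w : ℤ} (h1 : x ∈ W.gr X a)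
    (h2 : x ∈ fl R w) : W.map (prj X n i) x ∈ FF R n w := by
  rw [← ep_single]
  refine FF_gen (a := fun j => if j = i then a else 0) (ω := fun j => if j = i then w else 0)
    (fun j => ?_) (by simp)
  by_cases h : j = i
  · subst h
    rw [Pi.mulSingle_eq_same, if_pos rfl, if_pos rfl]
    exact ⟨h1, h2⟩
  · rw [Pi.mulSingle_eq_of_ne h, if_neg h, if_neg h, fl_zero]
    exact ⟨W.one_mem X, hR.one⟩

lemma Good.FF_prod {n N : ℕ} (y : Fin N → W.H (pw X n)) (ω : Fin N → ℤ)
    (h : ∀ i, y i ∈ FF R n (ω i)) : (List.ofFn y).prod ∈ FF R n (∑ i, ω i) := by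
  induction N with
  | zero =>
    rw [List.ofFn_zero, List.prod_nil, Finset.univ_eq_empty, Finset.sum_empty]
    exact hR.FF_one n
  | succ N ih =>
    rw [List.ofFn_succ, List.prod_cons, Fin.sum_univ_succ]
    exact hR.FF_mul (h 0) (ih _ _ fun i => h i.succ)

lemma Good.FF_pull {m n : ℕ} {f : pw X m ⟶ pw X n} (hf : IsCoordinate f) {w : ℤ}
    {c : W.H (pw X n)} (hc : c ∈ FF R n w) : W.map f c ∈ FF R m w := by
  obtain ⟨σ, hσ⟩ := hf
  rw [FF] at hc
  induction hc using Submodule.span_induction with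
  | zero => rw [map_zero]; exact Submodule.zero_mem _
  | add c c' _ _ h h' => rw [map_add]; exact Submodule.add_mem _ h h'
  | smul r c _ h => rw [map_smul]; exact Submodule.smul_mem _ _ h
  | mem c hc =>
    obtain ⟨x, a, ω, hx, hω, rfl⟩ := hc
    rw [extProd, map_list_prod, List.map_ofFn]
    refine FF_mono hω (hR.FF_prod _ _ fun i => ?_)
    rw [Function.comp_apply, ← W.map_comp, hσ]
    exact hR.FF_single _ (hx i).1 (hx i).2

end Good

/-- A homogeneous basis which is adapted to the filtration, with its dual basis. -/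
structure Adp {ι : Type} (R : Submodule W.K (W.H X)) (e : Basis ι W.K (W.H X))
    (a b : ι → ℕ) (ω : ι → ℤ) (f : ι → W.H X) : Prop where
  e_gr : ∀ j, e j ∈ W.gr X (a j)
  e_fl : ∀ j, e j ∈ fl R (ω j)
  f_gr : ∀ j, f j ∈ W.gr X (b j)
  f_fl : ∀ j, f j ∈ fl R (-ω j)
  dual : ∀ x j, W.tr X (f j * x) = e.repr x j

variable {ι : Type} [Fintype ι] [DecidableEq ι] {e : Basis ι W.K (W.H X)} {a b : ι → ℕ}
  {ω : ι → ℤ} {f : ι → W.H X}

/-- The coordinates of a class on a power in terms of the dual basis. -/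
lemma Adp.tr_dual (hA : Adp R e a b ω f) {n : ℕ} (I : Fin (n + 1) → ι) :
    ∃ s : W.K, s ≠ 0 ∧ ∀ c, W.tr (pw X n) (extProd W X n (fun i => f (I i)) * c) =
      s * (wb e n).repr c I := by
  have h0 : ∀ J : Fin (n + 1) → ι, ∃ s : W.K, s ≠ 0 ∧
      W.tr (pw X n) (extProd W X n (fun i => f (I i)) * wb e n J) = if J = I then s else 0 := by
    intro J
    obtain ⟨s, hs, h⟩ := ep_mul (W := W) (fun i => PH.of (hA.f_gr (I i)))
      fun i => PH.of (hA.e_gr (J i))
    refine ⟨s, hs, ?_⟩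
    have h1 : wb e n J = extProd W X n (fun i => e (J i)) := wb_eq e n J
    rw [h1, h, map_smul, tr_ep, smul_eq_mul]
    have h2 : ∀ i, W.tr X (((fun i => f (I i)) * fun i => e (J i)) i) =
        if J i = I i then 1 else 0 := by
      intro i
      rw [Pi.mul_apply, hA.dual, Basis.repr_self, Finsupp.single_apply]
    simp only [h2]
    by_cases hJ : J = I
    · subst hJ
      simp
    · rw [if_neg hJ]
      obtain ⟨i, hi⟩ : ∃ i, J i ≠ I i := by
        by_contra hcon
        push Not at hcon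
        exact hJ (funext hcon)
      rw [Finset.prod_eq_zero (Finset.mem_univ i) (if_neg hi), mul_zero]
  choose s hs h using h0
  refine ⟨s I, hs I, fun c => ?_⟩
  conv_lhs => rw [← (wb e n).sum_repr c, Finset.mul_sum, map_sum]
  rw [Finset.sum_eq_single I]
  · rw [mul_smul_comm, map_smul, h, if_pos rfl, smul_eq_mul, mul_comm]
  · intro J _ hJ
    rw [mul_smul_comm, map_smul, h, if_neg hJ, smul_zero]
  · intro h; exact absurd (Finset.mem_univ _) h

/-- **Duality.** -/
lemma Adp.FF_of_orth (hA : Adp R e a b ω f) {n : ℕ} {w : ℤ} {c : W.H (pw X n)}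
    (h : ∀ x : Fin (n + 1) → W.H X, ∀ (a' : Fin (n + 1) → ℕ) (ω' : Fin (n + 1) → ℤ),
      (∀ i, x i ∈ W.gr X (a' i) ∧ x i ∈ fl R (ω' i)) → ∑ i, ω' i < -w →
        W.tr (pw X n) (extProd W X n x * c) = 0) : c ∈ FF R n w := by
  rw [← (wb e n).sum_repr c]
  refine Submodule.sum_mem _ fun I _ => ?_
  by_cases hI : ∑ i, ω (I i) ≤ w
  · refine Submodule.smul_mem _ _ ?_
    have h1 : wb e n I = extProd W X n (fun i => e (I i)) := wb_eq e n I
    rw [h1]
    exact FF_gen (fun i => ⟨hA.e_gr _, hA.e_fl _⟩) hI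
  · obtain ⟨s, hs, h1⟩ := hA.tr_dual I
    have h2 := h (fun i => f (I i)) (fun i => b (I i)) (fun i => -ω (I i))
      (fun i => ⟨hA.f_gr _, hA.f_fl _⟩) (by rw [Finset.sum_neg_distrib]; omega)
    rw [h1] at h2
    rw [(mul_eq_zero.1 h2).resolve_left hs, zero_smul]
    exact Submodule.zero_mem _

/-- Push-forwards preserve the filtration. -/
lemma Adp.FF_push (hR : Good R) (hA : Adp R e a b ω f) {m n : ℕ} {g : pw X m ⟶ pw X n}
    (hg : IsCoordinate g) {w : ℤ} {c : W.H (pw X m)} (hc : c ∈ FF R m w) :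
    W.push g c ∈ FF R n w := by
  refine hA.FF_of_orth fun x a' ω' hx hω' => ?_
  have hgr := ep_mem (W := W) fun i => (hx i).1
  rw [← tr_comm_zero hgr, W.tr_push]
  have h1 : extProd W X n x ∈ FF R n (∑ i, ω' i) := FF_gen hx le_rfl
  refine hR.tr_FF (w := w + ∑ i, ω' i) (by omega) (hR.FF_mul hc (hR.FF_pull hg h1))

end Pool.Agent.Q200.LD
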